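import Pool.Agent.U516.AL.Spec

/-!
Project AL (helper516), package COM (helper30): one word for a list of words, by balanced iterated
commutators.
-/

set_option autoImplicit false

namespace AL516


lemma com_ab_ne : ¬ Commute (FreeGroup.of (0 : Fin 2)) (FreeGroup.of (1 : Fin 2)) := by
  intro h
  have h1 := congrArg (FreeGroup.lift (fun i : Fin 2 =>
    if i = 0 then Equiv.swap (0 : Fin 3) 1 else Equiv.swap (1 : Fin 3) 2)) h.eq
  simp only [map_mul, FreeGroup.lift_apply_of] at h1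
  revert h1
  decide

lemma com_step (hC : S_CORE) (u v : F2) (hu : u ≠ 1) (hv : v ≠ 1) :
    ∃ s : F2, s.norm ≤ 1 ∧ u * (s * v * s⁻¹) * u⁻¹ * (s * v * s⁻¹)⁻¹ ≠ 1 := by
  obtain ⟨C1, C2⟩ := hC
  by_contra hcon
  push Not at hcon
  have key : ∀ s : F2, s.norm ≤ 1 → Commute u (s * v * s⁻¹) := by
    intro s hs
    have h := hcon s hs
    have h2 : u * (s * v * s⁻¹) * u⁻¹ = s * v * s⁻¹ := by
      rw [mul_inv_eq_one] at h
      exact h
    rw [mul_inv_eq_iff_eq_mul] at h2
    exact h2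
  have k0 : Commute u v := by
    have := key 1 (by simp)
    simpa using this
  have kk : ∀ i : Fin 2, Commute v (FreeGroup.of i) := by
    intro i
    have h1 := key (FreeGroup.of i) (by simp)
    exact C1 v _ hv (C2 v u _ hu k0.symm h1)
  exact com_ab_ne (C2 _ v _ hv (kk 0).symm (kk 1))

lemma com_norm (u s v : F2) (hs : s.norm ≤ 1) :
    (u * (s * v * s⁻¹) * u⁻¹ * (s * v * s⁻¹)⁻¹).norm ≤ 2 * u.norm + 2 * v.norm + 4 := by
  have h1 : (s * v * s⁻¹).norm ≤ v.norm + 2 := by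
    have a1 := FreeGroup.norm_mul_le (s * v) s⁻¹
    have a2 := FreeGroup.norm_mul_le s v
    rw [FreeGroup.norm_inv_eq] at a1
    omega
  have h2 := FreeGroup.norm_mul_le (u * (s * v * s⁻¹) * u⁻¹) (s * v * s⁻¹)⁻¹
  have h3 := FreeGroup.norm_mul_le (u * (s * v * s⁻¹)) u⁻¹
  have h4 := FreeGroup.norm_mul_le u (s * v * s⁻¹)
  rw [FreeGroup.norm_inv_eq] at h2 h3
  omega

lemma com_ind (hC : S_CORE) (ℓ : ℕ) : ∀ (k : ℕ) (ws : List F2), ws ≠ [] → ws.length ≤ 2 ^ k →
    (∀ w ∈ ws, w ≠ 1) → (∀ w ∈ ws, w.norm ≤ ℓ) → ∃ u : F2, u ≠ 1 ∧ u.norm + 2 ≤ 4 ^ k * (ℓ + 2) ∧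
      ∀ (H : Type) [Group H] (φ : F2 →* H), (∃ w ∈ ws, φ w = 1) → φ u = 1 := by
  intro k
  induction k with
  | zero =>
    intro ws hne hlen h1 hn
    have h2 : ws.length = 1 := by
      have := List.length_pos_iff.2 hne
      simp at hlen
      omega
    obtain ⟨w, rfl⟩ := List.length_eq_one_iff.1 h2
    refine ⟨w, h1 w (by simp), ?_, ?_⟩
    · have := hn w (by simp)
      simp
      exact this
    · rintro H _ φ ⟨w', hw', h3⟩
      simp only [List.mem_singleton] at hw'
      rwa [← hw']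
  | succ k ih =>
    intro ws hne hlen h1 hn
    by_cases hk : ws.length ≤ 2 ^ k
    · obtain ⟨u, hu1, hu2, hu3⟩ := ih ws hne hk h1 hn
      refine ⟨u, hu1, hu2.trans ?_, hu3⟩
      exact Nat.mul_le_mul_right _ (Nat.pow_le_pow_right (by norm_num) (Nat.le_succ k))
    · push Not at hk
      have hlen' : ws.length ≤ 2 ^ k + 2 ^ k := by rw [pow_succ] at hlen; omega
      have hp : 0 < 2 ^ k := by positivity
      obtain ⟨u, hu1, hu2, hu3⟩ := ih (ws.take (2 ^ k)) (by
          intro h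
          have := congrArg List.length h
          simp at this
          exact hne this)
        (by simp)
        (fun w hw => h1 w (List.mem_of_mem_take hw)) (fun w hw => hn w (List.mem_of_mem_take hw))
      obtain ⟨v, hv1, hv2, hv3⟩ := ih (ws.drop (2 ^ k)) (by
          intro h
          have := congrArg List.length h
          simp at this
          omega)
        (by simp; omega)
        (fun w hw => h1 w (List.mem_of_mem_drop hw)) (fun w hw => hn w (List.mem_of_mem_drop hw))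
      obtain ⟨s, hs, hc⟩ := com_step hC u v hu1 hv1
      refine ⟨_, hc, ?_, ?_⟩
      · have h5 := com_norm u s v hs
        have h6 : 4 ^ (k + 1) * (ℓ + 2) = 4 * (4 ^ k * (ℓ + 2)) := by ring
        rw [h6]
        generalize 4 ^ k * (ℓ + 2) = X at *
        omega
      · rintro H _ φ ⟨w, hw, h5⟩
        rw [← List.take_append_drop (2 ^ k) ws, List.mem_append] at hw
        rcases hw with hw | hw
        · have h6 := hu3 H φ ⟨w, hw, h5⟩
          simp [h6]
        · have h6 := hv3 H φ ⟨w, hw, h5⟩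
          simp [h6]

theorem t_COM : S_CORE → S_COM := by
  intro hC ws ℓ hne h1 hℓ hn
  have hpos := List.length_pos_iff.2 hne
  obtain ⟨u, hu1, hu2, hu3⟩ := com_ind hC ℓ (Nat.log 2 ws.length + 1) ws hne
    (Nat.lt_pow_succ_log_self (by norm_num) _).le h1 hn
  refine ⟨u, hu1, ?_, hu3⟩
  have h2 : 2 ^ (Nat.log 2 ws.length) ≤ ws.length := Nat.pow_log_le_self 2 (by omega)
  have h3 : 4 ^ (Nat.log 2 ws.length + 1) ≤ 4 * ws.length ^ 2 := by
    have h4 : 4 ^ (Nat.log 2 ws.length + 1) = 4 * (2 ^ (Nat.log 2 ws.length)) ^ 2 := by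
      rw [pow_succ, ← pow_mul, mul_comm (Nat.log 2 ws.length) 2, pow_mul]
      norm_num
      ring
    rw [h4]
    exact Nat.mul_le_mul_left _ (Nat.pow_le_pow_left h2 2)
  calc u.norm ≤ u.norm + 2 := by omega
    _ ≤ 4 ^ (Nat.log 2 ws.length + 1) * (ℓ + 2) := hu2
    _ ≤ 4 * ws.length ^ 2 * (ℓ + 2) := Nat.mul_le_mul_right _ h3
    _ ≤ 4 * ws.length ^ 2 * (3 * ℓ) := Nat.mul_le_mul_left _ (by omega)
    _ ≤ 100 * ws.length ^ 2 * ℓ := by nlinarith [Nat.zero_le (ws.length ^ 2 * ℓ)]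

end AL516
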