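import Pool.Agent.U516.AL.Spec

/-!
Project AL, package CORE: commuting elements of a free group (for MP_99279c_al).
-/

set_option autoImplicit false

namespace AL516

section core

open FreeGroup FreeGroup.reduceCyclically

theorem core_norm_pow {α : Type} [DecidableEq α] (w : FreeGroup α) (n : ℕ) :
    (w ^ (n + 1)).norm = (conjugator w.toWord).length +
      ((n + 1) * (reduceCyclically w.toWord).length + (conjugator w.toWord).length) := by
  unfold FreeGroup.norm
  rw [FreeGroup.toWord_pow, reduce_flatten_replicate_succ FreeGroup.isReduced_toWord]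
  simp [FreeGroup.invRev_length, List.length_flatten]

theorem core_pos {α : Type} [DecidableEq α] (w : FreeGroup α) (hw : w ≠ 1) :
    1 ≤ (reduceCyclically w.toWord).length := by
  by_contra h
  push Not at h
  have h0 : reduceCyclically w.toWord = [] := List.length_eq_zero_iff.1 (by omega)
  have h1 := conj_conjugator_reduceCyclically w.toWord
  rw [h0, List.append_nil] at h1
  apply hw
  rw [← FreeGroup.mk_toWord (x := w), ← h1, ← FreeGroup.mul_mk, ← FreeGroup.inv_mk, mul_inv_cancel]

theorem core_bounds {α : Type} [DecidableEq α] (w : FreeGroup α) (n : ℕ) :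
    n * (reduceCyclically w.toWord).length ≤ (w ^ n).norm ∧
      (w ^ n).norm ≤ 2 * (conjugator w.toWord).length + n * (reduceCyclically w.toWord).length := by
  cases n with
  | zero => simp
  | succ n =>
    rw [core_norm_pow]
    constructor <;> omega

theorem core_natAbs {α : Type} [DecidableEq α] (w : FreeGroup α) (k : ℤ) :
    (w ^ k).norm = (w ^ k.natAbs).norm := by
  rcases Int.natAbs_eq k with h | h
  · conv_lhs => rw [h]
    rw [zpow_natCast]
  · conv_lhs => rw [h]
    rw [zpow_neg, zpow_natCast, FreeGroup.norm_inv_eq]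

theorem core_le {α : Type} [DecidableEq α] (w h : FreeGroup α) (hw : w ≠ 1) (p q : ℤ)
    (e : h * w ^ p * h⁻¹ = w ^ q) : q.natAbs ≤ p.natAbs := by
  by_contra hlt
  push Not at hlt
  set C := (conjugator w.toWord).length with hC
  set L := (reduceCyclically w.toWord).length with hL
  have hL1 : 1 ≤ L := core_pos w hw
  set N := 2 * h.norm + 2 * C + 1 with hN
  have e2 : h * w ^ (p * N) * h⁻¹ = w ^ (q * N) := by
    rw [zpow_mul, zpow_mul, ← e, zpow_natCast, zpow_natCast, conj_pow]
  have h1 := (core_bounds w (q * N).natAbs).1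
  rw [← core_natAbs, ← e2] at h1
  have h2 : (h * w ^ (p * N) * h⁻¹).norm ≤ h.norm + (w ^ (p * N)).norm + h.norm := by
    calc (h * w ^ (p * N) * h⁻¹).norm ≤ (h * w ^ (p * N)).norm + (h⁻¹).norm :=
          FreeGroup.norm_mul_le _ _
      _ ≤ h.norm + (w ^ (p * N)).norm + (h⁻¹).norm :=
          Nat.add_le_add_right (FreeGroup.norm_mul_le _ _) _
      _ = h.norm + (w ^ (p * N)).norm + h.norm := by rw [FreeGroup.norm_inv_eq]
  have h3 := (core_bounds w (p * N).natAbs).2
  rw [← core_natAbs] at h3
  rw [Int.natAbs_mul, Int.natAbs_natCast] at h1 h3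
  rw [← hL] at h1 h3
  rw [← hC] at h3
  have h4 : (p.natAbs + 1) * N * L ≤ q.natAbs * N * L :=
    Nat.mul_le_mul_right _ (Nat.mul_le_mul_right _ hlt)
  have h5 : (p.natAbs + 1) * N * L = p.natAbs * N * L + N * L := by ring
  have h6 : N ≤ N * L := Nat.le_mul_of_pos_right _ hL1
  omega

/-- `x ^ n` and `y` commute only if `x` and `y` do -/
theorem core_comm {α : Type} (x y : FreeGroup α) (n : ℤ) (hn : n ≠ 0) (h : Commute (x ^ n) y) :
    Commute x y := by
  have h1 : (y * x * y⁻¹) ^ n = x ^ n := by
    rw [conj_zpow, ← h.eq, mul_inv_cancel_right]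
  have h2 : y * x * y⁻¹ = x := zpow_left_injective hn h1
  have h3 : y * x = x * y := by
    rw [mul_inv_eq_iff_eq_mul] at h2
    exact h2
  exact h3.symm

theorem core_subsing (X : Type) (h : ∀ a b : FreeGroup X, a * b = b * a) : Subsingleton X := by
  classical
  constructor
  intro x y
  by_contra hxy
  let f : X → Equiv.Perm (Fin 3) := fun z => if z = x then Equiv.swap 0 1 else Equiv.swap 1 2
  have h1 := congrArg (FreeGroup.lift f) (h (FreeGroup.of x) (FreeGroup.of y))
  rw [_root_.map_mul, _root_.map_mul, FreeGroup.lift_apply_of, FreeGroup.lift_apply_of] at h1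
  simp only [f, if_true, if_neg (Ne.symm hxy)] at h1
  revert h1
  decide

theorem core_cyc (X : Type) [Subsingleton X] :
    ∃ g : FreeGroup X, ∀ h : FreeGroup X, ∃ k : ℤ, h = g ^ k := by
  rcases isEmpty_or_nonempty X with hX | ⟨⟨x⟩⟩
  · refine ⟨1, fun h => ⟨0, ?_⟩⟩
    rw [zpow_zero]
    exact Subsingleton.elim _ _
  · refine ⟨FreeGroup.of x, fun h => ?_⟩
    induction h using FreeGroup.induction_on with
    | C1 => exact ⟨0, by simp⟩
    | of y => exact ⟨1, by rw [Subsingleton.elim y x, zpow_one]⟩
    | inv_of y _ => exact ⟨-1, by rw [Subsingleton.elim y x, zpow_neg_one]⟩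
    | mul a b ha hb =>
      obtain ⟨k, hk⟩ := ha
      obtain ⟨l, hl⟩ := hb
      exact ⟨k + l, by rw [zpow_add, ← hk, ← hl]⟩

/-- commuting elements of a free group have a common root -/
theorem core_root {α : Type} (u v : FreeGroup α) (h : Commute u v) :
    ∃ (z : FreeGroup α) (i j : ℤ), u = z ^ i ∧ v = z ^ j := by
  have hH : ∀ a b : Subgroup.closure ({u, v} : Set (FreeGroup α)), a * b = b * a := by
    have hc : ∀ x ∈ ({u, v} : Set (FreeGroup α)), ∀ y ∈ ({u, v} : Set (FreeGroup α)),
        x * y = y * x := by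
      rintro x (rfl | rfl) y (rfl | rfl)
      · rfl
      · exact h.eq
      · exact h.eq.symm
      · rfl
    have := Subgroup.isMulCommutative_closure hc
    intro a b
    exact mul_comm' a b
  let φ := IsFreeGroup.toFreeGroup (Subgroup.closure ({u, v} : Set (FreeGroup α)))
  have hX := core_subsing (IsFreeGroup.Generators (Subgroup.closure ({u, v} : Set (FreeGroup α))))
    (fun a b => by
      have h1 := hH (φ.symm a) (φ.symm b)
      have h2 := congrArg φ h1
      rw [_root_.map_mul, _root_.map_mul, MulEquiv.apply_symm_apply, MulEquiv.apply_symm_apply] at h2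
      exact h2)
  obtain ⟨g, hg⟩ := core_cyc (IsFreeGroup.Generators (Subgroup.closure ({u, v} : Set (FreeGroup α))))
  have hu : u ∈ Subgroup.closure ({u, v} : Set (FreeGroup α)) :=
    Subgroup.subset_closure (Set.mem_insert _ _)
  have hv : v ∈ Subgroup.closure ({u, v} : Set (FreeGroup α)) :=
    Subgroup.subset_closure (Set.mem_insert_of_mem _ rfl)
  obtain ⟨i, hi⟩ := hg (φ ⟨u, hu⟩)
  obtain ⟨j, hj⟩ := hg (φ ⟨v, hv⟩)
  refine ⟨(φ.symm g : FreeGroup α), i, j, ?_, ?_⟩
  · have h1 := congrArg φ.symm hi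
    rw [MulEquiv.symm_apply_apply, map_zpow] at h1
    exact congrArg Subtype.val h1
  · have h1 := congrArg φ.symm hj
    rw [MulEquiv.symm_apply_apply, map_zpow] at h1
    exact congrArg Subtype.val h1

theorem core_part2 {α : Type} (u t v : FreeGroup α) (ht : t ≠ 1) (h1 : Commute u t)
    (h2 : Commute t v) : Commute u v := by
  obtain ⟨z, i, j, hi, hj⟩ := core_root u t h1
  have hj0 : j ≠ 0 := by
    rintro rfl
    exact ht (by rw [hj, zpow_zero])
  rw [hj] at h2
  rw [hi]
  exact (core_comm z v j hj0 h2).zpow_left i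

theorem core_part1 {α : Type} (t h : FreeGroup α) (ht : t ≠ 1) (hc : Commute t (h * t * h⁻¹)) :
    Commute t h := by
  classical
  obtain ⟨w, p, q, hp, hq⟩ := core_root t (h * t * h⁻¹) hc
  have hw : w ≠ 1 := by
    rintro rfl
    exact ht (by rw [hp, one_zpow])
  have e1 : h * w ^ p * h⁻¹ = w ^ q := by rw [← hp]; exact hq
  have e2 : h⁻¹ * w ^ q * h⁻¹⁻¹ = w ^ p := by
    rw [← e1]
    group
  have h1 := core_le w h hw p q e1
  have h2 := core_le w h⁻¹ hw q p e2
  have h3 : q = p ∨ q = -p := Int.natAbs_eq_natAbs_iff.1 (le_antisymm h1 h2)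
  rcases h3 with rfl | rfl
  · rw [← hp] at hq
    have h4 : h * t = t * h := by
      rw [mul_inv_eq_iff_eq_mul] at hq
      exact hq
    exact h4.symm
  · rw [zpow_neg, ← hp] at hq
    have h4 : Commute (h ^ (2 : ℤ)) t := by
      have h5 : h * t = t⁻¹ * h := by
        rw [mul_inv_eq_iff_eq_mul] at hq
        exact hq
      have h6 : h * t⁻¹ = t * h := by
        have h7 := congrArg (fun x => x⁻¹) hq
        simp only [mul_inv_rev, inv_inv] at h7
        rw [← mul_assoc, mul_inv_eq_iff_eq_mul] at h7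
        exact h7
      change h ^ (2 : ℤ) * t = t * h ^ (2 : ℤ)
      rw [zpow_two, mul_assoc, h5, ← mul_assoc, h6, mul_assoc]
    exact (core_comm h t 2 two_ne_zero h4).symm

end core

theorem t_CORE : S_CORE :=
  ⟨fun t h ht hc => core_part1 t h ht hc, fun u t v ht h1 h2 => core_part2 u t v ht h1 h2⟩

end AL516
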