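import Pool.Agent.U516.AL.Spec

/-!
Project AL, package DEN: density of the permutations of given sign with a power of small support
(by helper103). The double count is the one of `Pool/Agent/U516/R3/PkgST.lean` (by helper750).
-/

namespace AL516

namespace DENpf
open Finset MulAction Function

/-- the elements of sign `s` which map `a` to `b`, when the alternating group is transitive -/
lemma cnt_eq {n : ℕ} {X : Type*} [Fintype X] [DecidableEq X]
    [MulAction (Equiv.Perm (Fin n)) X] [IsPretransitive (alternatingGroup (Fin n)) X]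
    (s : ℤˣ) (a b : X) :
    Fintype.card X * #{g : Equiv.Perm (Fin n) | Equiv.Perm.sign g = s ∧ g • a = b}
      = #{g : Equiv.Perm (Fin n) | Equiv.Perm.sign g = s} := by
  classical
  have h1 : ∀ b', #{g : Equiv.Perm (Fin n) | Equiv.Perm.sign g = s ∧ g • a = b'}
      = #{g : Equiv.Perm (Fin n) | Equiv.Perm.sign g = s ∧ g • a = b} := by
    intro b'
    obtain ⟨h, hh⟩ := exists_smul_eq (alternatingGroup (Fin n)) b b'
    have hh' : (h : Equiv.Perm (Fin n)) • b = b' := hh
    have hs : Equiv.Perm.sign (h : Equiv.Perm (Fin n)) = 1 :=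
      Equiv.Perm.mem_alternatingGroup.1 h.2
    symm
    refine Finset.card_bij (fun g _ => (h : Equiv.Perm (Fin n)) * g) ?_ ?_ ?_
    · intro g hg
      rw [mem_filter] at hg ⊢
      exact ⟨mem_univ _, by rw [map_mul, hs, hg.2.1, one_mul], by rw [mul_smul, hg.2.2, hh']⟩
    · intro g _ g' _ e
      exact mul_left_cancel e
    · intro g hg
      rw [mem_filter] at hg
      refine ⟨(h : Equiv.Perm (Fin n))⁻¹ * g, ?_, by simp⟩
      rw [mem_filter]
      exact ⟨mem_univ _, by rw [map_mul, map_inv, hs, hg.2.1, inv_one, one_mul],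
        by rw [mul_smul, hg.2.2, ← hh', inv_smul_smul]⟩
  have h2 : #{g : Equiv.Perm (Fin n) | Equiv.Perm.sign g = s}
      = ∑ b' ∈ (univ : Finset X),
        #{g ∈ (univ.filter fun g : Equiv.Perm (Fin n) => Equiv.Perm.sign g = s) | g • a = b'} :=
    Finset.card_eq_sum_card_fiberwise (fun _ _ => mem_univ _)
  rw [h2, Finset.sum_congr rfl (fun b' _ => by rw [Finset.filter_filter, h1 b']), sum_const,
    smul_eq_mul, card_univ]

lemma cnt_pairs {n : ℕ} {X : Type*} [Fintype X] [DecidableEq X] [Nonempty X]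
    [MulAction (Equiv.Perm (Fin n)) X] [IsPretransitive (alternatingGroup (Fin n)) X]
    (s : ℤˣ) (φ : X → X) :
    #{p : X × Equiv.Perm (Fin n) | Equiv.Perm.sign p.2 = s ∧ p.2 • p.1 = φ p.1}
      = #{g : Equiv.Perm (Fin n) | Equiv.Perm.sign g = s} := by
  classical
  have h2 : #{p : X × Equiv.Perm (Fin n) | Equiv.Perm.sign p.2 = s ∧ p.2 • p.1 = φ p.1}
      = ∑ a : X, #{g : Equiv.Perm (Fin n) | Equiv.Perm.sign g = s ∧ g • a = φ a} := by
    have h3 : #{p : X × Equiv.Perm (Fin n) | Equiv.Perm.sign p.2 = s ∧ p.2 • p.1 = φ p.1}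
        = ∑ a ∈ (univ : Finset X),
        #{p ∈ (univ.filter fun p : X × Equiv.Perm (Fin n) =>
          Equiv.Perm.sign p.2 = s ∧ p.2 • p.1 = φ p.1) | p.1 = a} :=
      Finset.card_eq_sum_card_fiberwise (fun _ _ => mem_univ _)
    rw [h3]
    refine Finset.sum_congr rfl fun a _ => ?_
    refine Finset.card_bij (fun p _ => p.2) ?_ ?_ ?_
    · rintro ⟨b, g⟩ hp
      simp only [mem_filter, mem_univ, true_and] at hp ⊢
      obtain ⟨h4, rfl⟩ := hp
      exact h4
    · rintro ⟨b, g⟩ hp ⟨b', g'⟩ hp' e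
      simp only [mem_filter, mem_univ, true_and] at hp hp' e
      rw [hp.2, hp'.2, e]
    · intro g hg
      refine ⟨(a, g), ?_, rfl⟩
      simp only [mem_filter, mem_univ, true_and] at hg ⊢
      exact ⟨hg, trivial⟩
  have h4 : Fintype.card X *
      #{p : X × Equiv.Perm (Fin n) | Equiv.Perm.sign p.2 = s ∧ p.2 • p.1 = φ p.1} =
      Fintype.card X * #{g : Equiv.Perm (Fin n) | Equiv.Perm.sign g = s} := by
    rw [h2, mul_sum, Finset.sum_congr rfl (fun a _ => cnt_eq s a (φ a)), sum_const, smul_eq_mul,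
      card_univ]
  exact Nat.eq_of_mul_eq_mul_left Fintype.card_pos h4

open scoped Fin.CommRing in
lemma iter_eq {α : Type*} {l : ℕ} [NeZero l] (g : α → α) (a : Fin l → α)
    (h : ∀ i, g (a i) = a (i + 1)) (k : ℕ) : g^[k] (a 0) = a (k : Fin l) := by
  induction k with
  | zero => simp
  | succ k ih => rw [Function.iterate_succ_apply', ih, h]; push_cast; rfl

open scoped Fin.CommRing in
lemma minp_eq {α : Type*} {l : ℕ} [NeZero l] (g : α → α) (a : Fin l → α)
    (ha : Function.Injective a) (h : ∀ i, g (a i) = a (i + 1)) :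
    minimalPeriod g (a 0) = l := by
  have h1 : ∀ k, minimalPeriod g (a 0) ∣ k ↔ l ∣ k := by
    intro k
    rw [← isPeriodicPt_iff_minimalPeriod_dvd, ← Fin.natCast_eq_zero (n := l)]
    unfold IsPeriodicPt IsFixedPt
    rw [iter_eq g a h]
    exact ha.eq_iff
  exact Nat.dvd_antisymm ((h1 l).2 dvd_rfl) ((h1 _).1 dvd_rfl)

open scoped Fin.CommRing in
/-- number of elements of sign `s` with points of prescribed period -/
lemma cnt_min {n l : ℕ} (s : ℤˣ) (hl : 1 ≤ l) (hln : l + 2 ≤ n) :
    #{g : Equiv.Perm (Fin n) | Equiv.Perm.sign g = s} ≤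
      #{p : Equiv.Perm (Fin n) × Fin n |
        Equiv.Perm.sign p.1 = s ∧ minimalPeriod p.1 p.2 = l} := by
  classical
  have : NeZero l := ⟨by omega⟩
  have i0 : IsMultiplyPretransitive (alternatingGroup (Fin n)) (Fin n) (n - 2) := by
    have := alternatingGroup.isMultiplyPretransitive (Fin n)
    rwa [Nat.card_fin] at this
  have i1 : IsMultiplyPretransitive (alternatingGroup (Fin n)) (Fin n) l :=
    isMultiplyPretransitive_of_le (by omega : l ≤ n - 2) (by rw [Nat.card_fin]; omega)
  have i2 : IsPretransitive (alternatingGroup (Fin n)) (Fin l ↪ Fin n) := i1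
  have ne : Nonempty (Fin l ↪ Fin n) := ⟨Fin.castLEEmb (by omega)⟩
  let r : Equiv.Perm (Fin l) := Equiv.addRight (1 : Fin l)
  have hr1 : ∀ i : Fin l, r i = i + 1 := fun i => by simp [r]
  let φ : (Fin l ↪ Fin n) → (Fin l ↪ Fin n) := fun a => r.toEmbedding.trans a
  have h1 := @cnt_pairs n (Fin l ↪ Fin n) _ _ _ _ i2 s φ
  rw [← h1]
  have key : ∀ (a : Fin l ↪ Fin n) (g : Equiv.Perm (Fin n)), g • a = φ a →
      ∀ i, g (a i) = a (i + 1) := by
    intro a g h i
    have := DFunLike.congr_fun h i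
    rw [← hr1 i]
    exact this
  refine Finset.card_le_card_of_injOn (fun p => (p.2, p.1 0)) ?_ ?_
  · rintro ⟨a, g⟩ hp
    simp only [coe_filter, mem_univ, true_and, Set.mem_ofPred_eq] at hp ⊢
    exact ⟨hp.1, minp_eq (⇑g) (fun i => a i) a.injective (key a g hp.2)⟩
  · rintro ⟨a, g⟩ hp ⟨b, g'⟩ hq e
    simp only [coe_filter, mem_univ, true_and, Set.mem_ofPred_eq] at hp hq
    simp only [Prod.mk.injEq] at e
    obtain ⟨rfl, e1⟩ := e
    have h4 : a = b := by
      ext i
      congr 1
      have h5 := iter_eq (⇑g) (fun i => a i) (key a g hp.2) i.val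
      have h6 := iter_eq (⇑g) (fun i => b i) (key b g hq.2) i.val
      rw [Fin.cast_val_eq_self] at h5 h6
      rw [← h5, ← h6, e1]
    rw [h4]

/-- support of `g ^ l` -/
lemma supp_bound {n l : ℕ} (g : Equiv.Perm (Fin n)) (x : Fin n)
    (hx : minimalPeriod g x = l) : #(g ^ l).support + l ≤ n := by
  have it : ∀ (k : ℕ) (z : Fin n), (g ^ k) z = g^[k] z := by
    intro k z
    rw [Equiv.Perm.iterate_eq_pow]
  have h1 : (range l).card ≤ #((g ^ l).support)ᶜ := by
    refine Finset.card_le_card_of_injOn (fun k => g^[k] x) ?_ ?_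
    · intro k hk
      rw [mem_coe, mem_compl, Equiv.Perm.notMem_support, it]
      show g^[l] (g^[k] x) = g^[k] x
      rw [← Function.iterate_add_apply, Nat.add_comm l k, Function.iterate_add_apply]
      congr 1
      rw [← hx]
      exact isPeriodicPt_minimalPeriod g x
    · intro a ha b hb e
      rw [coe_range, Set.mem_Iio] at ha hb
      exact Function.iterate_injOn_Iio_minimalPeriod (f := g) (x := x)
        (by rw [hx]; exact ha) (by rw [hx]; exact hb) e
  rw [card_range, card_compl, Fintype.card_fin] at h1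
  have h2 : #(g ^ l).support ≤ n := by
    have := card_le_univ (g ^ l).support
    rwa [Fintype.card_fin] at this
  omega

/-- half of the permutations have sign `s` -/
lemma cnt_sign {n : ℕ} (hn : 2 ≤ n) (s : ℤˣ) :
    2 * #{g : Equiv.Perm (Fin n) | Equiv.Perm.sign g = s} = n.factorial := by
  classical
  let i0 : Fin n := ⟨0, by omega⟩
  let i1 : Fin n := ⟨1, by omega⟩
  have h01 : i0 ≠ i1 := by simp [i0, i1]
  have h1 : #{g : Equiv.Perm (Fin n) | Equiv.Perm.sign g = s}
      = #{g : Equiv.Perm (Fin n) | ¬ Equiv.Perm.sign g = s} := by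
    refine Finset.card_bij (fun g _ => Equiv.swap i0 i1 * g) ?_ ?_ ?_
    · intro g hg
      rw [mem_filter] at hg ⊢
      refine ⟨mem_univ _, ?_⟩
      rw [map_mul, Equiv.Perm.sign_swap h01, hg.2]
      rcases Int.units_eq_one_or s with h | h <;> rw [h] <;> decide
    · intro g _ g' _ e
      exact mul_left_cancel e
    · intro g hg
      rw [mem_filter] at hg
      have hg2 := Int.units_ne_iff_eq_neg.1 hg.2
      refine ⟨Equiv.swap i0 i1 * g, ?_, by rw [← mul_assoc, Equiv.swap_mul_self, one_mul]⟩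
      rw [mem_filter]
      refine ⟨mem_univ _, ?_⟩
      rw [map_mul, Equiv.Perm.sign_swap h01, hg2]
      simp
  have h2 := Finset.card_filter_add_card_filter_not (s := (univ : Finset (Equiv.Perm (Fin n))))
    (fun g => Equiv.Perm.sign g = s)
  rw [← h1, Finset.card_univ, Fintype.card_perm, Fintype.card_fin] at h2
  omega

theorem main : S_DEN := by
  classical
  intro n ε s hε hε2 h8
  have hn16 : (16 : ℝ) ≤ n := by nlinarith
  have hn : 16 ≤ n := by exact_mod_cast hn16
  set q := ⌊ε * n⌋₊ with hq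
  have hq1 : (q : ℝ) ≤ ε * n := Nat.floor_le (by linarith)
  have hq2 : ε * n < q + 1 := Nat.lt_floor_add_one _
  have hq3 : 8 ≤ q := Nat.le_floor (by exact_mod_cast h8)
  have hq4 : 2 * q ≤ n := by
    have : (2 * q : ℝ) ≤ n := by nlinarith
    exact_mod_cast this
  set A : Finset (Equiv.Perm (Fin n)) := univ.filter fun g => Equiv.Perm.sign g = s with hA
  have hA2 : 2 * #A = n.factorial := cnt_sign (by omega) s
  let I : Finset ℕ := Finset.Icc (n - q) (n - 2)
  have hI : #I = q - 1 := by
    simp only [I, Nat.card_Icc]; omega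
  let T : Finset (Equiv.Perm (Fin n) × Fin n) := univ.filter fun p =>
    Equiv.Perm.sign p.1 = s ∧ minimalPeriod p.1 p.2 ∈ I
  have h1 : #A * #I ≤ #T := by
    refine Finset.mul_card_image_le_card_of_maps_to (s := T) (t := I)
      (f := fun p => minimalPeriod p.1 p.2) ?_ _ ?_
    · intro p hp
      exact (mem_filter.1 hp).2.2
    · intro l hl
      have hl' := Finset.mem_Icc.1 hl
      refine (cnt_min (n := n) (l := l) s (by omega) (by omega)).trans ?_
      refine card_le_card ?_
      intro p hp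
      simp only [mem_filter, mem_univ, true_and, T] at hp ⊢
      exact ⟨⟨hp.1, by rw [hp.2]; exact hl⟩, hp.2⟩
  set B : Finset (Equiv.Perm (Fin n)) := univ.filter fun g =>
    Equiv.Perm.sign g = s ∧ PowSmall (ε * n) g with hB
  have h2 : #T ≤ #B * n := by
    have h3 : T ⊆ B ×ˢ (univ : Finset (Fin n)) := by
      rintro ⟨g, x⟩ hp
      simp only [mem_filter, mem_univ, true_and, T] at hp
      rw [mem_product]
      refine ⟨?_, mem_univ _⟩
      rw [hB, mem_filter]
      refine ⟨mem_univ _, hp.1, minimalPeriod g x, ?_⟩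
      have h4 := Finset.mem_Icc.1 hp.2
      have h5 := supp_bound g x rfl
      refine ⟨by omega, by omega, ?_⟩
      have h6 : #(g ^ minimalPeriod g x).support ≤ q := by omega
      have h7 : (#(g ^ minimalPeriod g x).support : ℝ) ≤ q := by exact_mod_cast h6
      exact h7.trans hq1
    have := card_le_card h3
    rwa [card_product, card_univ, Fintype.card_fin] at this
  have h3 : Nat.card {g : Equiv.Perm (Fin n) // Equiv.Perm.sign g = s ∧ PowSmall (ε * n) g}
      = #B := by
    rw [Nat.card_eq_fintype_card, Fintype.card_subtype]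
  rw [h3]
  have h4 : #A * (q - 1) ≤ #B * n := by rw [← hI]; exact h1.trans h2
  have h5 : ((#A : ℕ) : ℝ) * ((q : ℝ) - 1) ≤ (#B : ℝ) * n := by
    have : ((#A * (q - 1) : ℕ) : ℝ) ≤ ((#B * n : ℕ) : ℝ) := by exact_mod_cast h4
    rw [Nat.cast_mul, Nat.cast_mul, Nat.cast_sub (by omega)] at this
    simpa using this
  have h6 : (2 : ℝ) * #A = n.factorial := by exact_mod_cast hA2
  have hA0 : (0 : ℝ) ≤ #A := Nat.cast_nonneg _
  have h7 : ε * n / 4 ≤ (q : ℝ) - 1 := by linarith
  have h8' : (#A : ℝ) * (ε * n / 4) ≤ (#B : ℝ) * n :=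
    (mul_le_mul_of_nonneg_left h7 hA0).trans h5
  have hn0 : (0 : ℝ) < n := by linarith
  rw [← h6]
  have h9 : (ε / 8 * (2 * #A)) * n ≤ (#B : ℝ) * n := by
    calc (ε / 8 * (2 * #A)) * n = (#A : ℝ) * (ε * n / 4) := by ring
      _ ≤ _ := h8'
  exact le_of_mul_le_mul_right h9 hn0

end DENpf

theorem t_DEN : S_DEN := DENpf.main

end AL516
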