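import Pool.Agent.U516.AL.Spec

/-!
Project AL, package FIN (helper433): the assembly.
-/

set_option autoImplicit false

namespace AL516
open RC14 P2516 Finset Filter Topology
open Pool.Agent.R236.Den

noncomputable section

namespace FIN

/-- the index set -/
def Ix (n : ℕ) : Finset (ℕ × ℕ) := range (⌊Real.log n⌋₊ + 1) ×ˢ Icc 1 n

/-- the words at the start -/
def tw (p : ℕ × ℕ) : F2 := (FreeGroup.of 0 * FreeGroup.of 1 ^ (2 * p.1)) ^ p.2

lemma card_Ix (n : ℕ) : #(Ix n) = (⌊Real.log n⌋₊ + 1) * n := by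
  simp [Ix]

lemma tw_ne (p : ℕ × ℕ) (h : 1 ≤ p.2) : tw p ≠ 1 := by
  intro h1
  let φ : F2 →* Multiplicative ℤ := FreeGroup.lift
    (fun i : Fin 2 => if i = 0 then Multiplicative.ofAdd (1 : ℤ) else 1)
  have h2 : φ (tw p) = 1 := by rw [h1]; exact map_one φ
  have h3 : φ (tw p) = Multiplicative.ofAdd (1 : ℤ) ^ p.2 := by
    unfold tw
    rw [map_pow, map_mul, map_pow]
    simp [φ]
  rw [h3] at h2
  have h4 := congrArg Multiplicative.toAdd h2
  rw [toAdd_pow, toAdd_ofAdd, toAdd_one] at h4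
  simp only [nsmul_eq_mul, mul_one, Nat.cast_eq_zero] at h4
  omega

lemma norm_pow (x : F2) (k : ℕ) : (x ^ k).norm ≤ k * x.norm := by
  induction k with
  | zero => simp
  | succ k ih =>
    rw [pow_succ]
    have := FreeGroup.norm_mul_le (x ^ k) x
    rw [Nat.succ_mul]
    omega

lemma tw_norm (p : ℕ × ℕ) : (tw p).norm ≤ p.2 * (1 + 2 * p.1) := by
  unfold tw
  refine (norm_pow _ _).trans (Nat.mul_le_mul_left _ ?_)
  have h1 := FreeGroup.norm_mul_le (FreeGroup.of (0 : Fin 2)) (FreeGroup.of 1 ^ (2 * p.1))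
  have h2 := norm_pow (FreeGroup.of (1 : Fin 2)) (2 * p.1)
  rw [FreeGroup.norm_of] at h1 h2
  omega

lemma norm_cc (t h : F2) : (cc t h).norm ≤ 4 * t.norm + 4 * h.norm := by
  unfold cc
  have a1 := FreeGroup.norm_mul_le (t * (h * t * h⁻¹) * t⁻¹) (h * t * h⁻¹)⁻¹
  have a2 := FreeGroup.norm_mul_le (t * (h * t * h⁻¹)) t⁻¹
  have a3 := FreeGroup.norm_mul_le t (h * t * h⁻¹)
  have a4 := FreeGroup.norm_mul_le (h * t) h⁻¹
  have a5 := FreeGroup.norm_mul_le h t
  rw [FreeGroup.norm_inv_eq] at a1 a2 a4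
  omega

lemma norm_pw (g : ℕ → Fin 2) (e : ℕ) : (pw g e).norm ≤ e := by
  induction e with
  | zero => simp [pw]
  | succ e ih =>
    have h := FreeGroup.norm_mul_le (FreeGroup.of (g e)) (pw g e)
    rw [FreeGroup.norm_of] at h
    show (FreeGroup.of (g e) * pw g e).norm ≤ e + 1
    omega

lemma norm_pwf {T : ℕ} (g : Fin T → Fin 2) : (pwf g).norm ≤ T := norm_pw _ _

lemma ev_cc {n : ℕ} (x : Pr n) (a b : F2) : ev x (cc a b) = cc (ev x a) (ev x b) := by
  unfold cc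
  simp only [map_mul, map_inv]

lemma card_Pr (n : ℕ) : Fintype.card (Pr n) = n.factorial ^ 2 := by
  rw [Fintype.card_fun, Fintype.card_perm, Fintype.card_fin, Fintype.card_fin]

open Classical in
/-- the recursion -/
lemma recu (hNT : S_NT) (hST : S_STEP) {n T : ℕ} {K : ℝ} (hK : 0 < K) (hn : 1 ≤ n)
    (I : Finset (ℕ × ℕ)) (hI : 2 * #I ≤ 2 ^ T) (X0 : Finset (Pr n)) (hmix : ∀ x ∈ X0, Mix T x)
    (c : Pr n → ℕ × ℕ) (t0 : ℕ × ℕ → F2) (ht0 : ∀ p ∈ I, t0 p ≠ 1) (N0 : ℕ)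
    (hN0 : ∀ p ∈ I, (t0 p).norm ≤ N0) (s : ℕ → ℝ) (hs0 : ∀ k, 0 ≤ s k)
    (hs : ∀ k, 6 * K * s k ^ 2 / n ≤ s (k + 1))
    (hX0 : ∀ x ∈ X0, (#(ev x (t0 (c x))).support : ℝ) ≤ s 0) (k : ℕ) :
    ∃ (t : ℕ × ℕ → F2) (X : Finset (Pr n)), X ⊆ X0 ∧ (∀ p ∈ I, t p ≠ 1) ∧
      (∀ p ∈ I, (t p).norm + 2 * T ≤ 4 ^ k * (N0 + 2 * T)) ∧
      (∀ x ∈ X, (#(ev x (t (c x))).support : ℝ) ≤ s k) ∧
      (#(X0 \ X) : ℝ) ≤ k * (2 / K) * (n.factorial : ℝ) ^ 2 := by
  induction k with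
  | zero =>
    refine ⟨t0, X0, Subset.refl _, ht0, fun p hp => ?_, hX0, ?_⟩
    · have := hN0 p hp
      simpa using this
    · simp
  | succ k ih =>
    obtain ⟨t, X, hXs, hne, hN, hsup, hcard⟩ := ih
    let B : Finset (Fin T → Fin 2) := I.biUnion fun p => {g : Fin T → Fin 2 | cc (t p) (pwf g) = 1}
    have hB : #B ≤ #I := by
      refine card_biUnion_le.trans ?_
      have : ∑ p ∈ I, #({g : Fin T → Fin 2 | cc (t p) (pwf g) = 1} : Finset (Fin T → Fin 2)) ≤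
          ∑ _p ∈ I, 1 := sum_le_sum fun p hp => by
        have h := hNT T (t p) (hne p hp)
        convert h
      simpa using this
    obtain ⟨g, hg, hbad⟩ := hST n T K (s k) X (fun x => ev x (t (c x))) B hK (hs0 k) hn
      (fun x hx => hmix x (hXs hx)) hsup (by omega)
    refine ⟨fun p => cc (t p) (pwf g), X.filter fun x =>
      ¬ 6 * K * s k ^ 2 / n < (#(cc (ev x (t (c x))) (ev x (pwf g))).support : ℝ),
      (filter_subset _ _).trans hXs, fun p hp h1 => ?_, fun p hp => ?_, fun x hx => ?_, ?_⟩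
    · apply hg
      rw [mem_biUnion]
      exact ⟨p, hp, by simpa using h1⟩
    · have h1 := norm_cc (t p) (pwf g)
      have h2 := norm_pwf g
      have h3 := hN p hp
      show (cc (t p) (pwf g)).norm + 2 * T ≤ 4 ^ (k + 1) * (N0 + 2 * T)
      rw [pow_succ]
      have h4 : 4 ^ k * 4 * (N0 + 2 * T) = 4 * (4 ^ k * (N0 + 2 * T)) := by ring
      rw [h4]
      omega
    · rw [mem_filter] at hx
      have h1 := hx.2
      rw [not_lt] at h1
      show (#(ev x (cc (t (c x)) (pwf g))).support : ℝ) ≤ s (k + 1)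
      rw [ev_cc]
      exact h1.trans (hs k)
    · have h1 : X0 \ (X.filter fun x =>
          ¬ 6 * K * s k ^ 2 / n < (#(cc (ev x (t (c x))) (ev x (pwf g))).support : ℝ)) ⊆
          (X0 \ X) ∪ X.filter fun x =>
            6 * K * s k ^ 2 / n < (#(cc (ev x (t (c x))) (ev x (pwf g))).support : ℝ) := by
        intro x hx
        rw [Finset.mem_sdiff, mem_filter] at hx
        rw [mem_union, Finset.mem_sdiff, mem_filter]
        by_cases hxX : x ∈ X
        · right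
          refine ⟨hxX, ?_⟩
          by_contra h
          exact hx.2 ⟨hxX, h⟩
        · exact Or.inl ⟨hx.1, hxX⟩
      have h2 : (#(X0 \ (X.filter fun x =>
          ¬ 6 * K * s k ^ 2 / n < (#(cc (ev x (t (c x))) (ev x (pwf g))).support : ℝ))) : ℝ) ≤
          #(X0 \ X) + #(X.filter fun x =>
            6 * K * s k ^ 2 / n < (#(cc (ev x (t (c x))) (ev x (pwf g))).support : ℝ)) := by
        exact_mod_cast (card_le_card h1).trans (card_union_le _ _)
      have h3 : (#(X.filter fun x =>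
            6 * K * s k ^ 2 / n < (#(cc (ev x (t (c x))) (ev x (pwf g))).support : ℝ)) : ℝ) ≤
          2 / K * #X := by
        convert hbad
      have h4 : (#X : ℝ) ≤ (n.factorial : ℝ) ^ 2 := by
        have : #X ≤ Fintype.card (Pr n) := card_le_univ X
        rw [card_Pr] at this
        exact_mod_cast this
      have h5 : 2 / K * (#X : ℝ) ≤ 2 / K * (n.factorial : ℝ) ^ 2 :=
        mul_le_mul_of_nonneg_left h4 (by positivity)
      refine h2.trans ?_
      push_cast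
      have h6 : ((k : ℝ) + 1) * (2 / K) * (n.factorial : ℝ) ^ 2 =
          k * (2 / K) * (n.factorial : ℝ) ^ 2 + 2 / K * (n.factorial : ℝ) ^ 2 := by ring
      rw [h6]
      linarith

/-! ### numbers -/

/-- `(log n) ^ (1/4)` -/
def KK (n : ℕ) : ℝ := √(√(Real.log n))

lemma KK_sq (n : ℕ) : KK n ^ 2 = √(Real.log n) := Real.sq_sqrt (Real.sqrt_nonneg _)

/-- the bounds for the supports -/
def sq (n k : ℕ) : ℝ := n / (6 * KK n) * (6 / KK n) ^ (2 ^ k)

lemma KK_nonneg (n : ℕ) : 0 ≤ KK n := Real.sqrt_nonneg _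

lemma sq_nonneg' (n k : ℕ) : 0 ≤ sq n k := by
  have := KK_nonneg n
  unfold sq
  positivity

section

variable {n : ℕ} (hL : (10 : ℝ) ^ 6 ≤ Real.log n)
include hL

lemma n_pos : 0 < n := by
  rcases Nat.eq_zero_or_pos n with h | h
  · exfalso
    rw [h, Nat.cast_zero, Real.log_zero] at hL
    norm_num at hL
  · exact h

lemma log_le_n : Real.log n ≤ n := Real.log_le_self (Nat.cast_nonneg n)

lemma KK_four : KK n ^ 4 = Real.log n := by
  have h : (0 : ℝ) ≤ Real.log n := le_trans (by norm_num) hL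
  rw [show 4 = 2 * 2 from rfl, pow_mul, KK_sq, Real.sq_sqrt h]

lemma KK_ge : 12 ≤ KK n := by
  unfold KK
  rw [Real.le_sqrt' (by norm_num), Real.le_sqrt' (by norm_num)]
  linarith

lemma T_ge : 32 * Real.log n ≤ ((8 * ⌈4 * Real.log n⌉₊ : ℕ) : ℝ) := by
  push_cast
  have := Nat.le_ceil (4 * Real.log n)
  linarith

lemma T_le : ((8 * ⌈4 * Real.log n⌉₊ : ℕ) : ℝ) ≤ 40 * Real.log n := by
  push_cast
  have h : (0 : ℝ) ≤ 4 * Real.log n := by linarith
  have := Nat.ceil_lt_add_one h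
  linarith

lemma J_le : (⌊Real.log n⌋₊ : ℝ) ≤ Real.log n := Nat.floor_le (by linarith)

lemma cube_le : (n : ℝ) ^ 3 ≤ 2 ^ (8 * ⌈4 * Real.log n⌉₊) := by
  have hn : (0 : ℝ) < n := by exact_mod_cast n_pos hL
  have e1 : (n : ℝ) ^ 3 = Real.exp (((3 : ℕ) : ℝ) * Real.log n) := by
    rw [Real.exp_nat_mul, Real.exp_log hn]
  have e2 : (2 : ℝ) ^ (8 * ⌈4 * Real.log n⌉₊) =
      Real.exp (((8 * ⌈4 * Real.log n⌉₊ : ℕ) : ℝ) * Real.log 2) := by
    rw [Real.exp_nat_mul, Real.exp_log (by norm_num)]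
  rw [e1, e2]
  apply Real.exp_le_exp.2
  have h1 := T_ge hL
  have h2 := Real.log_two_gt_d9
  have h3 : 32 * Real.log n * (1 / 2) ≤ ((8 * ⌈4 * Real.log n⌉₊ : ℕ) : ℝ) * Real.log 2 :=
    mul_le_mul h1 (by linarith) (by norm_num) (Nat.cast_nonneg _)
  push_cast at h3 ⊢
  linarith

lemma cardI_le : (#(Ix n) : ℝ) ≤ 2 * n * Real.log n := by
  rw [card_Ix]
  push_cast
  have h1 := J_le hL
  have hn : (0 : ℝ) ≤ n := Nat.cast_nonneg n
  nlinarith

lemma cardI : 2 * #(Ix n) ≤ 2 ^ (8 * ⌈4 * Real.log n⌉₊) := by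
  have h1 := cardI_le hL
  have h2 := cube_le hL
  have h3 := log_le_n hL
  have hn : (10 : ℝ) ^ 6 ≤ n := hL.trans h3
  have h4 : (2 * #(Ix n) : ℝ) ≤ 2 ^ (8 * ⌈4 * Real.log n⌉₊) := by
    refine le_trans ?_ h2
    have h5 : 2 * (n : ℝ) * Real.log n ≤ 2 * n * n :=
      mul_le_mul_of_nonneg_left h3 (by positivity)
    have h6 : 4 * ((n : ℝ) * n) ≤ n * (n * n) :=
      mul_le_mul_of_nonneg_right (by linarith) (by positivity)
    nlinarith
  exact_mod_cast h4

lemma clog_le : (Nat.clog 2 n : ℝ) ≤ 2 * Real.log n := by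
  have hn1 : 1 < n := by
    have h3 := log_le_n hL
    have : (1 : ℝ) < n := by linarith
    exact_mod_cast this
  have h1 := Nat.pow_pred_clog_lt_self (b := 2) one_lt_two hn1
  have h2 : (2 : ℝ) ^ (Nat.clog 2 n).pred < n := by exact_mod_cast h1
  have h3 := Real.log_lt_log (by positivity) h2
  rw [Real.log_pow] at h3
  have h4 := Real.log_two_gt_d9
  have h5 : (Nat.clog 2 n : ℝ) ≤ ((Nat.clog 2 n).pred : ℝ) + 1 := by
    have : Nat.clog 2 n ≤ (Nat.clog 2 n).pred + 1 := by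
      rw [Nat.pred_eq_sub_one]; omega
    exact_mod_cast this
  have h6 : (0 : ℝ) ≤ ((Nat.clog 2 n).pred : ℝ) := Nat.cast_nonneg _
  have h7 : ((Nat.clog 2 n).pred : ℝ) * (69 / 100) ≤ ((Nat.clog 2 n).pred : ℝ) * Real.log 2 :=
    mul_le_mul_of_nonneg_left (by linarith) h6
  linarith

lemma two_S_le : (2 : ℝ) ^ Nat.clog 2 (Nat.clog 2 n) ≤ 4 * Real.log n := by
  have hn : 10 ^ 6 ≤ n := by
    have h3 := hL.trans (log_le_n hL)
    exact_mod_cast h3
  have hc : 1 < Nat.clog 2 n := by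
    by_contra h
    have h1 := Nat.le_pow_clog (b := 2) one_lt_two n
    have h2 : 2 ^ Nat.clog 2 n ≤ 2 ^ 1 := Nat.pow_le_pow_right (by norm_num) (by omega)
    omega
  have h1 := Nat.pow_pred_clog_lt_self (b := 2) one_lt_two hc
  have h2 : (2 : ℝ) ^ (Nat.clog 2 (Nat.clog 2 n)).pred ≤ Nat.clog 2 n := by
    exact_mod_cast h1.le
  have h3 : (2 : ℝ) ^ Nat.clog 2 (Nat.clog 2 n) ≤
      2 * 2 ^ (Nat.clog 2 (Nat.clog 2 n)).pred := by
    rcases Nat.eq_zero_or_pos (Nat.clog 2 (Nat.clog 2 n)) with h | h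
    · rw [h]; norm_num
    · have e : Nat.clog 2 (Nat.clog 2 n) = (Nat.clog 2 (Nat.clog 2 n)).pred + 1 := by
        rw [Nat.pred_eq_sub_one]; omega
      conv_lhs => rw [e, pow_succ]
      rw [mul_comm]
  have h4 := clog_le hL
  linarith

lemma S_big : n ≤ 2 ^ 2 ^ Nat.clog 2 (Nat.clog 2 n) :=
  (Nat.le_pow_clog one_lt_two n).trans
    (Nat.pow_le_pow_right (by norm_num) (Nat.le_pow_clog one_lt_two _))

lemma S_le : (Nat.clog 2 (Nat.clog 2 n) : ℝ) ≤ 4 + 8 * Real.log (KK n) := by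
  have h1 := two_S_le hL
  have hK := KK_ge hL
  have hK0 : 0 < KK n := by linarith
  rw [← KK_four hL] at h1
  have h2 := Real.log_le_log (by positivity) h1
  rw [Real.log_pow, Real.log_mul (by norm_num) (by positivity), Real.log_pow,
    show (4 : ℝ) = 2 ^ 2 by norm_num, Real.log_pow] at h2
  have h3 := Real.log_two_gt_d9
  have h4 : 0 ≤ Real.log (KK n) := Real.log_nonneg (by linarith)
  push_cast at h2
  by_contra h5
  rw [not_le] at h5
  nlinarith

lemma sq_zero : sq n 0 = n / √(Real.log n) := by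
  unfold sq
  have hK := KK_ge hL
  have hK0 : KK n ≠ 0 := by linarith
  rw [← KK_sq n, pow_zero, pow_one]
  field_simp

lemma sq_succ (k : ℕ) : 6 * KK n * sq n k ^ 2 / n = sq n (k + 1) := by
  unfold sq
  have hK := KK_ge hL
  have hK0 : KK n ≠ 0 := by linarith
  have hn : (n : ℝ) ≠ 0 := by
    have := n_pos hL
    positivity
  rw [pow_succ 2 k, pow_mul]
  set a := (6 / KK n) ^ (2 ^ k)
  field_simp

lemma sq_last : sq n (Nat.clog 2 (Nat.clog 2 n)) < 1 := by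
  unfold sq
  have hK := KK_ge hL
  have hK0 : 0 < KK n := by linarith
  have hn : (0 : ℝ) < n := by exact_mod_cast n_pos hL
  have h1 : 6 / KK n ≤ 1 / 2 := by
    rw [div_le_div_iff₀ hK0 (by norm_num)]
    linarith
  have h2 : (6 / KK n) ^ (2 ^ Nat.clog 2 (Nat.clog 2 n)) ≤ 1 / n := by
    refine (pow_le_pow_left₀ (by positivity) h1 _).trans ?_
    rw [one_div, inv_pow, one_div]
    apply inv_anti₀ hn
    exact_mod_cast S_big hL
  calc n / (6 * KK n) * (6 / KK n) ^ (2 ^ Nat.clog 2 (Nat.clog 2 n))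
      ≤ n / (6 * KK n) * (1 / n) := mul_le_mul_of_nonneg_left h2 (by positivity)
    _ = 1 / (6 * KK n) := by field_simp
    _ < 1 := by rw [div_lt_one (by positivity)]; linarith

lemma len_le : ((4 ^ Nat.clog 2 (Nat.clog 2 n) * (n * (1 + 2 * ⌊Real.log n⌋₊) +
    2 * (8 * ⌈4 * Real.log n⌉₊)) : ℕ) : ℝ) ≤ 64 * n * Real.log n ^ 3 := by
  have h1 := two_S_le hL
  have h2 := J_le hL
  have h3 := T_le hL
  have h4 := log_le_n hL
  have hL0 : 0 < Real.log n := lt_of_lt_of_le (by norm_num) hL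
  have h5 : (4 : ℝ) ^ Nat.clog 2 (Nat.clog 2 n) ≤ 16 * Real.log n ^ 2 := by
    have e : (4 : ℝ) ^ Nat.clog 2 (Nat.clog 2 n) = (2 ^ Nat.clog 2 (Nat.clog 2 n)) ^ 2 := by
      rw [← pow_mul, mul_comm, pow_mul]; norm_num
    rw [e]
    calc ((2 : ℝ) ^ Nat.clog 2 (Nat.clog 2 n)) ^ 2 ≤ (4 * Real.log n) ^ 2 :=
          pow_le_pow_left₀ (by positivity) h1 2
      _ = 16 * Real.log n ^ 2 := by ring
  have h6 : (n : ℝ) * (1 + 2 * ⌊Real.log n⌋₊) + 2 * (((8 * ⌈4 * Real.log n⌉₊ : ℕ)) : ℝ) ≤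
      4 * n * Real.log n := by
    have h7 : (n : ℝ) * (1 + 2 * ⌊Real.log n⌋₊) ≤ n * (1 + 2 * Real.log n) :=
      mul_le_mul_of_nonneg_left (by linarith) (Nat.cast_nonneg n)
    have hn6 : (10 : ℝ) ^ 6 ≤ n := hL.trans h4
    have h8 : (n : ℝ) * 1 ≤ n * Real.log n := mul_le_mul_of_nonneg_left (by linarith) (by positivity)
    have h9 : 80 * Real.log n ≤ n * Real.log n :=
      mul_le_mul_of_nonneg_right (by linarith) hL0.le
    linarith
  have e : ((4 ^ Nat.clog 2 (Nat.clog 2 n) * (n * (1 + 2 * ⌊Real.log n⌋₊) +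
    2 * (8 * ⌈4 * Real.log n⌉₊)) : ℕ) : ℝ) = 4 ^ Nat.clog 2 (Nat.clog 2 n) *
      ((n : ℝ) * (1 + 2 * ⌊Real.log n⌋₊) + 2 * (((8 * ⌈4 * Real.log n⌉₊ : ℕ)) : ℝ)) := by
    push_cast
    ring
  rw [e]
  calc (4 : ℝ) ^ Nat.clog 2 (Nat.clog 2 n) *
      ((n : ℝ) * (1 + 2 * ⌊Real.log n⌋₊) + 2 * (((8 * ⌈4 * Real.log n⌉₊ : ℕ)) : ℝ))
      ≤ (16 * Real.log n ^ 2) * (4 * n * Real.log n) :=
        mul_le_mul h5 h6 (by positivity) (by positivity)
    _ = 64 * n * Real.log n ^ 3 := by ring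

end

open Classical in
lemma key (hNT : S_NT) (hCOM : S_COM) (hST : S_STEP) {n : ℕ} (hL : (10 : ℝ) ^ 6 ≤ Real.log n) :
    ∃ u : F2, u ≠ 1 ∧ (u.norm : ℝ) ≤ (n : ℝ) ^ 3 * Real.log n ^ 6 ∧
      (Nat.card {x : Pr n // ev x u ≠ 1} : ℝ) ≤
        (Nat.card {x : Pr n // ¬ Mix (8 * ⌈4 * Real.log n⌉₊) x} : ℝ) +
        (Nat.card {x : Pr n // ¬ ∃ i ≤ ⌊Real.log n⌋₊,
          PowSmall (n / Real.sqrt (Real.log n)) (x 0 * x 1 ^ (2 * i))} : ℝ) +
        (4 + 8 * Real.log (KK n)) * (2 / KK n) * (n.factorial : ℝ) ^ 2 := by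
  have hn := n_pos hL
  have hK12 : 12 ≤ KK n := KK_ge hL
  have hL0 : 0 < Real.log n := lt_of_lt_of_le (by norm_num) hL
  let X0 : Finset (Pr n) := univ.filter fun x => Mix (8 * ⌈4 * Real.log n⌉₊) x ∧
    ∃ i ≤ ⌊Real.log n⌋₊, PowSmall (n / √(Real.log n)) (x 0 * x 1 ^ (2 * i))
  have hex : ∀ x : Pr n, x ∈ X0 → ∃ p : ℕ × ℕ, p ∈ Ix n ∧
      (#(ev x (tw p)).support : ℝ) ≤ sq n 0 := by
    intro x hx
    obtain ⟨_, _, i, hi, m, hm1, hm2, hm⟩ := mem_filter.1 hx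
    refine ⟨(i, m), ?_, ?_⟩
    · unfold Ix
      rw [mem_product, mem_range, mem_Icc]
      exact ⟨Nat.lt_succ_of_le hi, hm1, hm2⟩
    · rw [sq_zero hL]
      have : ev x (tw (i, m)) = (x 0 * x 1 ^ (2 * i)) ^ m := by
        unfold tw
        rw [map_pow, map_mul, map_pow, FreeGroup.lift_apply_of, FreeGroup.lift_apply_of]
      rw [this]
      exact hm
  choose! c hc1 hc2 using hex
  have hN0 : ∀ p ∈ Ix n, (tw p).norm ≤ n * (1 + 2 * ⌊Real.log n⌋₊) := by
    intro p hp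
    refine (tw_norm p).trans ?_
    unfold Ix at hp
    rw [mem_product, mem_range, mem_Icc] at hp
    exact Nat.mul_le_mul hp.2.2 (by omega)
  have hne0 : ∀ p ∈ Ix n, tw p ≠ 1 := by
    intro p hp
    unfold Ix at hp
    rw [mem_product, mem_range, mem_Icc] at hp
    exact tw_ne p hp.2.1
  obtain ⟨t, X, hXs, hne, hN, hsup, hcard⟩ := recu hNT hST (by linarith : 0 < KK n) hn (Ix n)
    (cardI hL) X0 (fun x hx => (mem_filter.1 hx).2.1) c tw hne0 _ hN0 (sq n) (sq_nonneg' n)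
    (fun k => (sq_succ hL k).le) hc2 (Nat.clog 2 (Nat.clog 2 n))
  have hker : ∀ x ∈ X, ev x (t (c x)) = 1 := by
    intro x hx
    have h1 := (hsup x hx).trans_lt (sq_last hL)
    have h2 : #(ev x (t (c x))).support < 1 := by exact_mod_cast h1
    have h3 : #(ev x (t (c x))).support = 0 := by omega
    rw [card_eq_zero, Equiv.Perm.support_eq_empty_iff] at h3
    exact h3
  obtain ⟨u, hu1, hu2, hu3⟩ := hCOM ((Ix n).toList.map t)
    (4 ^ Nat.clog 2 (Nat.clog 2 n) * (n * (1 + 2 * ⌊Real.log n⌋₊) +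
      2 * (8 * ⌈4 * Real.log n⌉₊)))
    (by
      intro h
      have h1 := congrArg List.length h
      rw [List.length_map, length_toList, card_Ix, List.length_nil] at h1
      have : 0 < (⌊Real.log n⌋₊ + 1) * n := Nat.mul_pos (Nat.succ_pos _) hn
      omega)
    (by
      intro w hw
      rw [List.mem_map] at hw
      obtain ⟨p, hp, rfl⟩ := hw
      exact hne p (mem_toList.1 hp))
    (by
      have h1 : 0 < n * (1 + 2 * ⌊Real.log n⌋₊) := Nat.mul_pos hn (by omega)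
      exact Nat.mul_pos (by positivity) (by omega))
    (by
      intro w hw
      rw [List.mem_map] at hw
      obtain ⟨p, hp, rfl⟩ := hw
      exact (Nat.le_add_right _ _).trans (hN p (mem_toList.1 hp)))
  refine ⟨u, hu1, ?_, ?_⟩
  · rw [List.length_map, length_toList] at hu2
    have h1 : (u.norm : ℝ) ≤ 100 * (#(Ix n) : ℝ) ^ 2 *
        ((4 ^ Nat.clog 2 (Nat.clog 2 n) * (n * (1 + 2 * ⌊Real.log n⌋₊) +
          2 * (8 * ⌈4 * Real.log n⌉₊)) : ℕ) : ℝ) := by exact_mod_cast hu2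
    have h2 := cardI_le hL
    have h3 := len_le hL
    have hn0 : (0 : ℝ) < n := by exact_mod_cast hn
    calc (u.norm : ℝ) ≤ _ := h1
      _ ≤ 100 * (2 * n * Real.log n) ^ 2 * (64 * n * Real.log n ^ 3) := by
        apply mul_le_mul _ h3 (Nat.cast_nonneg _) (by positivity)
        apply mul_le_mul_of_nonneg_left _ (by norm_num)
        exact pow_le_pow_left₀ (Nat.cast_nonneg _) h2 2
      _ = 25600 * ((n : ℝ) ^ 3 * Real.log n ^ 5) := by ring
      _ ≤ Real.log n * ((n : ℝ) ^ 3 * Real.log n ^ 5) :=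
        mul_le_mul_of_nonneg_right (by linarith) (by positivity)
      _ = (n : ℝ) ^ 3 * Real.log n ^ 6 := by ring
  · have hsub : (univ.filter fun x : Pr n => ev x u ≠ 1) ⊆
        ((univ.filter fun x : Pr n => ¬ Mix (8 * ⌈4 * Real.log n⌉₊) x) ∪
        (univ.filter fun x : Pr n => ¬ ∃ i ≤ ⌊Real.log n⌋₊,
          PowSmall (n / Real.sqrt (Real.log n)) (x 0 * x 1 ^ (2 * i)))) ∪ (X0 \ X) := by
      intro x hx
      rw [mem_filter] at hx
      rw [mem_union, mem_union, mem_filter, mem_filter, Finset.mem_sdiff]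
      by_cases h1 : Mix (8 * ⌈4 * Real.log n⌉₊) x
      · by_cases h2 : ∃ i ≤ ⌊Real.log n⌋₊,
          PowSmall (n / Real.sqrt (Real.log n)) (x 0 * x 1 ^ (2 * i))
        · right
          have h3 : x ∈ X0 := mem_filter.2 ⟨mem_univ _, h1, h2⟩
          refine ⟨h3, fun h4 => hx.2 ?_⟩
          exact hu3 _ (ev x) ⟨t (c x), List.mem_map.2 ⟨c x, mem_toList.2 (hc1 x h3), rfl⟩,
            hker x h4⟩
        · left; right
          exact ⟨mem_univ _, h2⟩
      · left; left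
        exact ⟨mem_univ _, h1⟩
    have h1 := (card_le_card hsub).trans ((card_union_le _ _).trans
      (Nat.add_le_add_right (card_union_le _ _) _))
    have e : ∀ (q : Pr n → Prop) [DecidablePred q],
        Nat.card {x : Pr n // q x} = #(univ.filter q) := by
      intro q _
      rw [Nat.card_eq_fintype_card, Fintype.card_subtype]
    rw [e (fun x : Pr n => ev x u ≠ 1), e (fun x : Pr n => ¬ Mix (8 * ⌈4 * Real.log n⌉₊) x),
      e (fun x : Pr n => ¬ ∃ i ≤ ⌊Real.log n⌋₊,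
          PowSmall (n / Real.sqrt (Real.log n)) (x 0 * x 1 ^ (2 * i)))]
    have h2 : (#(univ.filter fun x : Pr n => ev x u ≠ 1) : ℝ) ≤
        (#(univ.filter fun x : Pr n => ¬ Mix (8 * ⌈4 * Real.log n⌉₊) x) : ℝ) +
        (#(univ.filter fun x : Pr n => ¬ ∃ i ≤ ⌊Real.log n⌋₊,
          PowSmall (n / Real.sqrt (Real.log n)) (x 0 * x 1 ^ (2 * i))) : ℝ) + #(X0 \ X) := by
      exact_mod_cast h1
    refine h2.trans (add_le_add le_rfl (hcard.trans ?_))
    apply mul_le_mul_of_nonneg_right _ (by positivity)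
    exact mul_le_mul_of_nonneg_right (S_le hL) (by positivity)

end FIN

theorem t_FIN : S_NT → S_COM → S_MIX1 → S_STEP → S_SEC2 → S_AL := by
  intro hNT hCOM hMIX hST hSEC
  have key' : ∀ n : ℕ, (10 : ℝ) ^ 6 ≤ Real.log n → ∃ u : F2, u ≠ 1 ∧
      (u.norm : ℝ) ≤ (n : ℝ) ^ 3 * Real.log n ^ 6 ∧
      (Nat.card {x : Pr n // ev x u ≠ 1} : ℝ) ≤
        (Nat.card {x : Pr n // ¬ Mix (8 * ⌈4 * Real.log n⌉₊) x} : ℝ) +
        (Nat.card {x : Pr n // ¬ ∃ i ≤ ⌊Real.log n⌋₊,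
          PowSmall (n / Real.sqrt (Real.log n)) (x 0 * x 1 ^ (2 * i))} : ℝ) +
        (4 + 8 * Real.log (FIN.KK n)) * (2 / FIN.KK n) * (n.factorial : ℝ) ^ 2 :=
    fun n hL => FIN.key hNT hCOM hST hL
  choose! w hw using key'
  have hlog : Tendsto (fun n : ℕ => Real.log n) atTop atTop :=
    Real.tendsto_log_atTop.comp tendsto_natCast_atTop_atTop
  have hev : ∀ᶠ n : ℕ in atTop, (10 : ℝ) ^ 6 ≤ Real.log n := hlog.eventually_ge_atTop _
  refine ⟨w, ?_, ?_⟩
  · filter_upwards [hev] with n hn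
    exact ⟨(hw n hn).1, (hw n hn).2.1⟩
  · intro e he
    have hK : Tendsto (fun n : ℕ => FIN.KK n) atTop atTop :=
      Real.tendsto_sqrt_atTop.comp (Real.tendsto_sqrt_atTop.comp hlog)
    have h0 : ∀ᶠ n : ℕ in atTop, (4 + 8 * Real.log (FIN.KK n)) * (2 / FIN.KK n) ≤ e / 2 := by
      have h1 : ∀ᶠ y : ℝ in atTop, (4 + 8 * Real.log y) * (2 / y) ≤ e / 2 := by
        have h2 := Real.isLittleO_log_id_atTop.def (show (0 : ℝ) < e / 64 by linarith)
        filter_upwards [h2, eventually_ge_atTop (1 : ℝ), eventually_ge_atTop (32 / e)]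
          with y h3 h4 h5
        have hy : 0 < y := by linarith
        rw [Real.norm_eq_abs, abs_of_nonneg (Real.log_nonneg h4), id, Real.norm_eq_abs,
          abs_of_pos hy] at h3
        rw [div_le_iff₀ he] at h5
        rw [mul_div_assoc', div_le_iff₀ hy]
        nlinarith
      exact hK.eventually h1
    filter_upwards [hev, hMIX (e / 4) (by linarith), hSEC (e / 4) (by linarith), h0]
      with n h1 h2 h3 h4
    refine (hw n h1).2.2.trans ?_
    have h5 := mul_le_mul_of_nonneg_right h4 (show 0 ≤ (n.factorial : ℝ) ^ 2 by positivity)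
    linarith

end

end AL516
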