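import Pool.Agent.U516.AL.Spec
import Pool.Agent.U516.P2.PkgTRC
import Pool.Agent.U516.P2.PkgTGP

/-!
Project AL, package MIX1 (helper653): random pairs of permutations mix on points.
-/

set_option autoImplicit false

namespace AL516
open RC14 P2516 Finset Filter Topology

namespace MIX1

lemma ev_pw {n : ℕ} (x : Pr n) (g : ℕ → Fin 2) (T : ℕ) (a : Fin n) :
    ev x (pw g T) a = TRC.run x (List.ofFn (fun i : Fin T => g i)) a := by
  induction T with
  | zero => simp [pw, TRC.run]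
  | succ T ih =>
    rw [List.ofFn_succ_last, TRC.run_snoc]
    simp only [pw, map_mul, Equiv.Perm.mul_apply, FreeGroup.lift_apply_of, Fin.val_castSucc, Fin.val_last]
    rw [← ih]

lemma ev_pwf {n T : ℕ} (x : Pr n) (g : Fin T → Fin 2) (a : Fin n) :
    ev x (pwf g) a = TRC.run x (List.ofFn g) a := by
  unfold pwf
  rw [ev_pw]
  congr 2
  funext i
  simp

/-- the Hilbert-Schmidt norm on `1`-tuples is the one on points -/
lemma HS_one {n : ℕ} (hn : 0 < n) (x : Pr n) (L : ℕ) :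
    HS (fun i => mvE (j := 1) (x i)) L = HS x L := by
  classical
  have : Nonempty (Fin n) := ⟨⟨0, hn⟩⟩
  have e : Tup 1 n ≃ Fin n := Equiv.uniqueEmbeddingEquivResult
  have : Nonempty (Tup 1 n) := ⟨e.symm ⟨0, hn⟩⟩
  rw [TRC.HS_eq, TRC.HS_eq]
  congr 2
  refine Finset.sum_congr rfl fun g _ => Finset.sum_congr rfl fun h _ => ?_
  congr 1
  unfold TRC.coin
  refine Finset.card_equiv (Equiv.uniqueEmbeddingEquivResult : Tup 1 n ≃ Fin n) fun a => ?_
  simp only [Finset.mem_filter, Finset.mem_univ, true_and]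
  have h0 : ∀ g : List (Fin 2), TRC.run x g ((Equiv.uniqueEmbeddingEquivResult : Tup 1 n ≃ Fin n) a) =
      TRC.run (fun i => mvE (j := 1) (x i)) g a 0 := by
    intro g
    rw [TRC.run_mvE]
    rfl
  rw [h0, h0]
  constructor
  · intro h
    rw [h]
  · intro h
    ext c
    rw [Subsingleton.elim c 0, h]

lemma bop_sum {Ω : Type} [Fintype Ω] (y : Fin 2 → Equiv.Perm Ω) (φ : Ω → ℝ) :
    ∑ a, bop y φ a = ∑ a, φ a := by
  unfold bop
  rw [← Finset.sum_div, Finset.sum_add_distrib, Equiv.sum_comp (y 0) φ, Equiv.sum_comp (y 1) φ]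
  ring

lemma bop_iter_sum {Ω : Type} [Fintype Ω] (y : Fin 2 → Equiv.Perm Ω) (φ : Ω → ℝ) (L : ℕ) :
    ∑ a, (bop y)^[L] φ a = ∑ a, φ a := by
  induction L with
  | zero => rfl
  | succ L ih => rw [Function.iterate_succ_apply', bop_sum, ih]

/-- contraction on the functions of sum zero -/
lemma contr {Ω : Type} [Fintype Ω] (y : Fin 2 → Equiv.Perm Ω) (L : ℕ) (φ : Ω → ℝ)
    (h0 : ∑ a, φ a = 0) : ∑ a, ((bop y)^[L] φ a) ^ 2 ≤ HS y L * ∑ a, φ a ^ 2 := by
  classical
  have h1 : ∀ a, (bop y)^[L] φ a = ∑ b, ((bop y)^[L] (fun c => if c = b then (1 : ℝ) else 0) a -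
      1 / (Fintype.card Ω : ℝ)) * φ b := by
    intro a
    simp only [sub_mul, Finset.sum_sub_distrib]
    rw [← Finset.mul_sum, h0, mul_zero, sub_zero]
    simp only [TRC.bop_iter]
    simp only [div_mul_eq_mul_div, ← Finset.sum_div, Finset.sum_mul]
    congr 1
    rw [Finset.sum_comm]
    refine Finset.sum_congr rfl fun g _ => ?_
    simp
  have h2 : HS y L = ∑ a, ∑ b, ((bop y)^[L] (fun c => if c = b then (1 : ℝ) else 0) a -
      1 / (Fintype.card Ω : ℝ)) ^ 2 := by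
    unfold HS
    rw [Finset.sum_comm]
  rw [h2, Finset.sum_mul]
  refine Finset.sum_le_sum fun a _ => ?_
  rw [h1 a]
  exact Finset.sum_mul_sq_le_sq_mul_sq _ _ _

lemma contr_iter {Ω : Type} [Fintype Ω] (y : Fin 2 → Equiv.Perm Ω) (L k : ℕ) (φ : Ω → ℝ)
    (h0 : ∑ a, φ a = 0) :
    ∑ a, (((bop y)^[L])^[k] φ a) ^ 2 ≤ HS y L ^ k * ∑ a, φ a ^ 2 := by
  induction k with
  | zero => simp
  | succ k ih =>
    rw [Function.iterate_succ_apply', pow_succ', mul_assoc]
    have h1 : ∑ a, (((bop y)^[L])^[k] φ) a = 0 := by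
      rw [← Function.iterate_mul, bop_iter_sum, h0]
    exact (contr y L _ h1).trans (mul_le_mul_of_nonneg_left ih (tgp_HS_nonneg y L))

/-- a small Hilbert-Schmidt norm gives mixing -/
lemma mix_of {n L : ℕ} (hn : 0 < n) (x : Pr n) (h : HS x L ^ 4 ≤ 1 / n) : Mix (8 * L) x := by
  classical
  intro a b
  have hnR : (0 : ℝ) < n := by exact_mod_cast hn
  have h1 : ∀ φ : Fin n → ℝ, (bop x)^[8 * L] φ a =
      (∑ g : Fin (8 * L) → Fin 2, φ (TRC.run x (List.ofFn g) a)) / 2 ^ (8 * L) :=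
    fun φ => TRC.bop_iter x φ (8 * L) a
  set φ : Fin n → ℝ := fun c => (if c = b then 1 else 0) - 1 / n with hφ
  have hs : ∑ c, φ c = 0 := by
    simp only [hφ, Finset.sum_sub_distrib, Finset.sum_ite_eq', Finset.mem_univ, if_true,
      Finset.sum_const, Finset.card_univ, Fintype.card_fin, nsmul_eq_mul]
    field_simp
    ring
  have hs2 : ∑ c, φ c ^ 2 ≤ 1 := by
    have e1 : ∀ c, φ c ^ 2 = (if c = b then (1 : ℝ) else 0) * (1 - 2 / n) + 1 / n ^ 2 := by
      intro c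
      simp only [hφ]
      split_ifs <;> ring
    simp only [e1, Finset.sum_add_distrib, ← Finset.sum_mul, Finset.sum_ite_eq', Finset.mem_univ,
      if_true, Finset.sum_const, Finset.card_univ, Fintype.card_fin, nsmul_eq_mul]
    have : (n : ℝ) * (1 / n ^ 2) = 1 / n := by field_simp
    rw [this]
    have : (2 : ℝ) / n = 2 * (1 / n) := by ring
    rw [this]
    have : (0 : ℝ) ≤ 1 / n := by positivity
    linarith
  have h2 := contr_iter x L 8 φ hs
  rw [← Function.iterate_mul, mul_comm L 8] at h2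
  have h3 : ((bop x)^[8 * L] φ a) ^ 2 ≤ (1 / n) ^ 2 := by
    calc ((bop x)^[8 * L] φ a) ^ 2 ≤ ∑ a, ((bop x)^[8 * L] φ a) ^ 2 :=
          Finset.single_le_sum (f := fun a => ((bop x)^[8 * L] φ a) ^ 2)
            (fun i _ => sq_nonneg _) (Finset.mem_univ a)
      _ ≤ HS x L ^ 8 * ∑ a, φ a ^ 2 := h2
      _ ≤ HS x L ^ 8 * 1 := mul_le_mul_of_nonneg_left hs2 (pow_nonneg (tgp_HS_nonneg x L) _)
      _ = (HS x L ^ 4) ^ 2 := by ring
      _ ≤ (1 / n) ^ 2 := pow_le_pow_left₀ (pow_nonneg (tgp_HS_nonneg x L) _) h 2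
  have h4 : (bop x)^[8 * L] φ a ≤ 1 / n := (abs_le_of_sq_le_sq' h3 (by positivity)).2
  rw [h1] at h4
  have h5 : ∑ g : Fin (8 * L) → Fin 2, φ (TRC.run x (List.ofFn g) a) =
      (#{g : Fin (8 * L) → Fin 2 | ev x (pwf g) a = b} : ℝ) - 2 ^ (8 * L) / n := by
    simp only [hφ, Finset.sum_sub_distrib, Finset.sum_const, Finset.card_univ, Fintype.card_fun,
      Fintype.card_fin, nsmul_eq_mul]
    congr 1
    · rw [Finset.card_filter]
      push_cast
      refine Finset.sum_congr rfl fun g _ => ?_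
      rw [ev_pwf]
    · push_cast
      ring
  rw [h5, div_le_iff₀ (by positivity)] at h4
  have h6 : (#{g : Fin (8 * L) → Fin 2 | ev x (pwf g) a = b} : ℝ) ≤ 2 * 2 ^ (8 * L) / n := by
    have e1 : (2 : ℝ) * 2 ^ (8 * L) / n = 1 / n * 2 ^ (8 * L) + 2 ^ (8 * L) / n := by ring
    rw [e1]
    linarith
  rwa [le_div_iff₀ hnR] at h6

end MIX1

open MIX1 in
/-- package MIX1 -/
theorem t_MIX1 : P2516.S_TRC → S_MIX1 := by
  classical
  intro hT e he
  have E1 := tgp_ev_logk 0 (1 / 4) (50000 / e) 3 (by norm_num)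
  have E2 := tgp_ev_logk 0 (1 / 2) 12500 3 (by norm_num)
  have E3 := tgp_ev_logk 0 1 200 2 (by norm_num)
  have E4 := ev_le (1 / 4) 1 (2 / e) (by norm_num)
  have E5 : ∀ᶠ n : ℕ in atTop, (1 : ℝ) ≤ Real.log n :=
    (Real.tendsto_log_atTop.comp tendsto_natCast_atTop_atTop).eventually_ge_atTop 1
  filter_upwards [E1, E2, E3, E4, E5, eventually_ge_atTop 2] with n E1 E2 E3 E4 E5 hn2
  have hn0 : 0 < n := by omega
  have hn : (0 : ℝ) < n := by exact_mod_cast hn0
  have hn1 : (1 : ℝ) ≤ n := by exact_mod_cast (by omega : 1 ≤ n)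
  rw [Real.rpow_zero, mul_one] at E1 E2 E3
  rw [Real.rpow_one] at E3 E4
  obtain ⟨l, hl⟩ : ∃ l : ℝ, l = Real.log n := ⟨_, rfl⟩
  rw [← hl] at E1 E2 E3 E5
  set L : ℕ := ⌈4 * Real.log n⌉₊ with hL
  have hLge : 4 * l ≤ L := by rw [hl]; exact Nat.le_ceil _
  have hLle : (L : ℝ) ≤ 5 * l := by
    have h3 : (L : ℝ) < 4 * Real.log n + 1 := Nat.ceil_lt_add_one (by rw [← hl]; linarith)
    rw [← hl] at h3
    linarith
  have hL1 : 1 ≤ L := by
    have : (1 : ℝ) ≤ L := by linarith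
    exact_mod_cast this
  have hL0 : (0 : ℝ) < L := by exact_mod_cast hL1
  have hc1 : 8 * L ^ 2 * 1 ≤ n := by
    have : 8 * (L : ℝ) ^ 2 ≤ n := by
      calc 8 * (L : ℝ) ^ 2 ≤ 8 * (5 * l) ^ 2 := by gcongr
        _ = 200 * l ^ 2 := by ring
        _ ≤ n := E3
    rw [mul_one]
    exact_mod_cast this
  have h := hT n 1 L le_rfl hL1 hc1
  simp only [HS_one hn0] at h
  -- the two terms
  obtain ⟨q, hq⟩ : ∃ q : ℝ, q = (n : ℝ) ^ (1 / 4 : ℝ) := ⟨_, rfl⟩
  have hq0 : 0 < q := by rw [hq]; exact Real.rpow_pos_of_pos hn _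
  have hq4 : q ^ 4 = n := by
    rw [hq, ← Real.rpow_natCast, ← Real.rpow_mul hn.le]
    norm_num
  have hq2 : (n : ℝ) ^ (1 / 2 : ℝ) = q ^ 2 := by
    rw [hq, ← Real.rpow_natCast, ← Real.rpow_mul hn.le]
    norm_num
  rw [← hq] at E1 E4
  rw [hq2] at E2
  have t1 : (n : ℝ) ^ 1 / 2 ^ L ≤ 1 / n := by
    have a1 : (n : ℝ) = Real.exp l := by rw [hl, Real.exp_log hn]
    have a2 : Real.exp (2 * l) ≤ (2 : ℝ) ^ L := by
      have : (2 : ℝ) ^ L = Real.exp (L * Real.log 2) := by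
        rw [mul_comm, Real.exp_mul, Real.exp_log (by norm_num), Real.rpow_natCast]
      rw [this]
      refine Real.exp_le_exp.2 ?_
      have := Real.log_two_gt_d9
      have h5 : 4 * l * (1 / 2) ≤ L * Real.log 2 :=
        mul_le_mul hLge (by linarith) (by norm_num) hL0.le
      linarith
    have a3 : (n : ℝ) * n ≤ 2 ^ L := by
      have : Real.exp (2 * l) = n * n := by rw [two_mul, Real.exp_add, ← a1]
      rwa [this] at a2
    rw [pow_one, div_le_div_iff₀ (by positivity) hn]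
    linarith
  obtain ⟨t, ht⟩ : ∃ t : ℝ, t = 100 * Real.sqrt ((L : ℝ) ^ 6 * ((1 : ℕ) : ℝ) ^ 5 / n) := ⟨_, rfl⟩
  have ht' : t = 100 * ((L : ℝ) ^ 3 / q ^ 2) := by
    rw [ht]
    congr 1
    have : (L : ℝ) ^ 6 * ((1 : ℕ) : ℝ) ^ 5 / n = ((L : ℝ) ^ 3 / q ^ 2) ^ 2 := by
      rw [div_pow, ← hq4]
      push_cast
      ring
    rw [this, Real.sqrt_sq (by positivity)]
  have hL3 : (L : ℝ) ^ 3 ≤ 125 * l ^ 3 := by
    calc (L : ℝ) ^ 3 ≤ (5 * l) ^ 3 := by gcongr
      _ = _ := by ring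
  have ht1 : t ≤ 1 := by
    rw [ht', mul_div_assoc', div_le_one (by positivity)]
    linarith
  have ht0 : 0 ≤ t := by rw [ht']; positivity
  have t2 : Real.exp t - 1 ≤ 2 * t := by
    have := Real.abs_exp_sub_one_le (x := t) (by rw [abs_of_nonneg ht0]; exact ht1)
    rw [abs_of_nonneg ht0] at this
    exact (le_abs_self _).trans this
  have t3 : 2 * t * q ≤ e / 2 := by
    have e1 : 2 * t * q = 200 * (L : ℝ) ^ 3 / q := by
      rw [ht']
      field_simp
      ring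
    rw [e1, div_le_iff₀ hq0]
    have e2 : 50000 * l ^ 3 ≤ q * e := by
      rw [div_mul_eq_mul_div, div_le_iff₀ he] at E1
      exact E1
    linarith
  have t4 : 1 / n * q ≤ e / 2 := by
    rw [div_mul_eq_mul_div, div_le_iff₀ he] at E4
    rw [one_div_mul_eq_div, div_le_iff₀ hn]
    linarith
  rw [← ht] at h
  have hfac : (0 : ℝ) < (n.factorial : ℝ) ^ 2 := by positivity
  have htot : (∑ x : Fin 2 → Equiv.Perm (Fin n), HS x L) * q ≤ e * (n.factorial : ℝ) ^ 2 := by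
    calc (∑ x : Fin 2 → Equiv.Perm (Fin n), HS x L) * q
        ≤ ((n.factorial : ℝ) ^ 2 * (1 / n + 2 * t)) * q := by
          refine mul_le_mul_of_nonneg_right (h.trans ?_) hq0.le
          exact mul_le_mul_of_nonneg_left (add_le_add t1 t2) hfac.le
      _ = (1 / n * q + 2 * t * q) * (n.factorial : ℝ) ^ 2 := by ring
      _ ≤ e * (n.factorial : ℝ) ^ 2 := mul_le_mul_of_nonneg_right (by linarith) hfac.le
  -- the bad set
  set B : Finset (Pr n) := univ.filter fun x => 1 / q < HS x L with hB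
  have hcard : (Nat.card {x : Pr n // ¬ Mix (8 * L) x} : ℝ) ≤ (#B : ℝ) := by
    rw [Nat.card_eq_fintype_card, Fintype.card_subtype]
    refine Nat.cast_le.2 (card_le_card ?_)
    intro x hx
    rw [mem_filter] at hx
    rw [hB, mem_filter]
    refine ⟨mem_univ _, ?_⟩
    by_contra hcon
    refine hx.2 (mix_of hn0 x ?_)
    calc HS x L ^ 4 ≤ (1 / q) ^ 4 := pow_le_pow_left₀ (tgp_HS_nonneg x L) (not_lt.1 hcon) 4
      _ = 1 / n := by rw [div_pow, one_pow, hq4]
  have hmark : (#B : ℝ) ≤ (∑ x : Fin 2 → Equiv.Perm (Fin n), HS x L) * q := by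
    calc (#B : ℝ) = ∑ _x ∈ B, (1 : ℝ) := by rw [sum_const, nsmul_eq_mul, mul_one]
      _ ≤ ∑ x ∈ B, HS x L * q := sum_le_sum fun x hx => by
          rw [hB, mem_filter] at hx
          have := hx.2
          rw [div_lt_iff₀ hq0] at this
          exact this.le
      _ ≤ ∑ x, HS x L * q := sum_le_sum_of_subset_of_nonneg (subset_univ _)
          fun y _ _ => mul_nonneg (tgp_HS_nonneg _ _) hq0.le
      _ = _ := by rw [Finset.sum_mul]
  exact hcard.trans (hmark.trans htot)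

end AL516
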