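import Pool.Agent.U516.AL.Spec

/-!
Project AL (helper516), package NT (helper480): few positive words give a trivial commutator.
-/

set_option autoImplicit false

namespace AL516

/-- the list of the letters of a positive word -/
def lst (g : ℕ → Fin 2) : ℕ → List (Fin 2 × Bool)
  | 0 => []
  | e + 1 => (g e, true) :: lst g e

theorem pw_eq (g : ℕ → Fin 2) : ∀ e : ℕ, pw g e = FreeGroup.mk (lst g e)
  | 0 => rfl
  | e + 1 => by
    show FreeGroup.of (g e) * pw g e = _
    rw [pw_eq g e]
    rfl

theorem lst_pos (g : ℕ → Fin 2) : ∀ e : ℕ, ∀ x ∈ lst g e, x.2 = true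
  | 0 => by simp [lst]
  | e + 1 => by
    intro x hx
    rcases List.mem_cons.1 hx with rfl | hx
    · rfl
    · exact lst_pos g e x hx

theorem lst_len (g : ℕ → Fin 2) : ∀ e : ℕ, (lst g e).length = e
  | 0 => rfl
  | e + 1 => by
    show (lst g e).length + 1 = e + 1
    rw [lst_len g e]

theorem lst_inj (g g' : ℕ → Fin 2) : ∀ e : ℕ, lst g e = lst g' e → ∀ j < e, g j = g' j
  | 0 => fun _ j hj => absurd hj (Nat.not_lt_zero j)
  | e + 1 => fun h j hj => by
    have h' : (g e, true) :: lst g e = (g' e, true) :: lst g' e := h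
    rw [List.cons.injEq, Prod.mk.injEq] at h'
    rcases Nat.lt_succ_iff_lt_or_eq.1 hj with hj | rfl
    · exact lst_inj g g' e h'.2 j hj
    · exact h'.1.1

theorem red_pos : ∀ L : List (Fin 2 × Bool), (∀ x ∈ L, x.2 = true) → FreeGroup.reduce L = L
  | [] => fun _ => rfl
  | x :: L => fun h => by
    have ih := red_pos L (fun y hy => h y (List.mem_cons_of_mem _ hy))
    rw [FreeGroup.reduce.cons, ih]
    cases L with
    | nil => rfl
    | cons y L =>
      have h1 : x.2 = true := h x List.mem_cons_self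
      have h2 : y.2 = true := h y (List.mem_cons_of_mem _ List.mem_cons_self)
      simp [h1, h2]

theorem mk_inj {L L' : List (Fin 2 × Bool)} (h : ∀ x ∈ L, x.2 = true) (h' : ∀ x ∈ L', x.2 = true)
    (he : FreeGroup.mk L = FreeGroup.mk L') : L = L' := by
  have h1 := congrArg FreeGroup.toWord he
  rw [FreeGroup.toWord_mk, FreeGroup.toWord_mk, red_pos L h, red_pos L' h'] at h1
  exact h1

theorem comm_of_cc {t h : F2} (hcc : cc t h = 1) : Commute t (h * t * h⁻¹) := by
  unfold cc at hcc
  have h1 := mul_inv_eq_one.1 hcc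
  exact mul_inv_eq_iff_eq_mul.1 h1

theorem t_NT : S_CORE → S_NT := by
  intro hC T t ht
  classical
  rw [Finset.card_le_one]
  intro g hg g' hg'
  rw [Finset.mem_filter] at hg hg'
  have h1 := hC.1 t _ ht (comm_of_cc hg.2)
  have h2 := hC.1 t _ ht (comm_of_cc hg'.2)
  have h3 : Commute (pwf g) (pwf g') := hC.2 _ t _ ht h1.symm h2
  have h4 : pwf g * pwf g' = pwf g' * pwf g := h3
  unfold pwf at h4
  rw [pw_eq, pw_eq, FreeGroup.mul_mk, FreeGroup.mul_mk] at h4
  have h5 := mk_inj (by
    intro x hx
    rcases List.mem_append.1 hx with hx | hx <;> exact lst_pos _ _ x hx) (by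
    intro x hx
    rcases List.mem_append.1 hx with hx | hx <;> exact lst_pos _ _ x hx) h4
  have h6 := List.append_inj_left h5 (by rw [lst_len, lst_len])
  funext j
  have h7 := lst_inj _ _ T h6 j.1 j.2
  simpa [j.2] using h7

end AL516
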