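import Pool.Agent.U516.AL.Spec

/-!
# Project AL, package STEP: the choice of one word which reduces the supports
-/

set_option autoImplicit false

namespace AL516
open Finset

namespace STEPAux

lemma perm_apply_inv {n : ℕ} (f : Equiv.Perm (Fin n)) (x : Fin n) : f (f⁻¹ x) = x :=
  Equiv.apply_symm_apply f x

lemma supp_comm {n : ℕ} (t c : Equiv.Perm (Fin n)) :
    #(t * c * t⁻¹ * c⁻¹).support ≤ 3 * #(t.support ∩ c.support) := by
  classical
  set D := t.support ∩ c.support with hD
  have hsub : (t * c * t⁻¹ * c⁻¹).support ⊆ D ∪ D.image t ∪ D.image c := by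
    intro y hy
    by_contra hn
    simp only [mem_union, mem_image, not_or, not_exists, not_and] at hn
    obtain ⟨⟨h1, h2⟩, h3⟩ := hn
    rw [Equiv.Perm.mem_support] at hy
    apply hy
    simp only [Equiv.Perm.mul_apply]
    by_cases hc : y ∈ c.support
    · have ht : y ∉ t.support := fun h => h1 (mem_inter.2 ⟨h, hc⟩)
      have hz : t (c⁻¹ y) = c⁻¹ y := by
        by_contra h
        have hz1 : c⁻¹ y ∈ t.support := Equiv.Perm.mem_support.2 h
        have hz2 : c⁻¹ y ∈ c.support := by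
          rw [Equiv.Perm.mem_support] at hc ⊢
          rw [perm_apply_inv]
          intro h4
          exact hc ((congrArg c h4).trans (perm_apply_inv _ _))
        exact h3 _ (mem_inter.2 ⟨hz1, hz2⟩) (perm_apply_inv _ _)
      rw [Equiv.Perm.inv_eq_iff_eq.2 hz.symm, perm_apply_inv]
      exact Equiv.Perm.notMem_support.1 ht
    · have h4 : c y = y := Equiv.Perm.notMem_support.1 hc
      rw [Equiv.Perm.inv_eq_iff_eq.2 h4.symm]
      have h5 : c (t⁻¹ y) = t⁻¹ y := by
        by_contra h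
        have hz2 : t⁻¹ y ∈ c.support := Equiv.Perm.mem_support.2 h
        have hz1 : t⁻¹ y ∈ t.support := by
          rw [Equiv.Perm.mem_support, perm_apply_inv]
          intro h6
          rw [← h6] at hz2
          exact hc hz2
        exact h2 _ (mem_inter.2 ⟨hz1, hz2⟩) (perm_apply_inv _ _)
      rw [h5, perm_apply_inv]
  calc #(t * c * t⁻¹ * c⁻¹).support ≤ #(D ∪ D.image t ∪ D.image c) := card_le_card hsub
    _ ≤ #(D ∪ D.image t) + #(D.image c) := card_union_le _ _
    _ ≤ (#D + #(D.image t)) + #(D.image c) := Nat.add_le_add_right (card_union_le _ _) _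
    _ ≤ (#D + #D) + #D := Nat.add_le_add (Nat.add_le_add_left card_image_le _) card_image_le
    _ = 3 * #D := by ring

lemma inter_le {n : ℕ} (t h : Equiv.Perm (Fin n)) :
    #(t.support ∩ (h * t * h⁻¹).support) ≤
      ∑ b ∈ t.support, ∑ a ∈ t.support, if h a = b then 1 else 0 := by
  classical
  rw [Equiv.Perm.support_conj, ← filter_mem_eq_inter, card_filter]
  refine sum_le_sum fun b _ => ?_
  split_ifs with hb
  · obtain ⟨a, ha, rfl⟩ := mem_map.1 hb
    have h1 := single_le_sum (f := fun a' => if h a' = (h.toEmbedding a) then 1 else 0)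
      (fun _ _ => Nat.zero_le _) ha
    simpa using h1
  · exact Nat.zero_le _

end STEPAux

open STEPAux in
theorem t_STEP : S_STEP := by
  classical
  intro n T K s X t B hK hs hn hmix hsup hB
  have hn0 : (0 : ℝ) < n := by exact_mod_cast hn
  -- the bad words for one pair
  have hbad : ∀ x ∈ X, (#{g : Fin T → Fin 2 |
      6 * K * s ^ 2 / n < (#(cc (t x) (ev x (pwf g))).support : ℝ)} : ℝ) ≤ 2 ^ T / K := by
    intro x hx
    set A := (t x).support with hA
    set d : (Fin T → Fin 2) → ℕ := fun g =>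
      #((t x).support ∩ (ev x (pwf g) * t x * (ev x (pwf g))⁻¹).support) with hd
    have hcc : ∀ g, (#(cc (t x) (ev x (pwf g))).support : ℝ) ≤ 3 * d g := by
      intro g
      have h1 : #(cc (t x) (ev x (pwf g))).support ≤ 3 * d g :=
        supp_comm (t x) (ev x (pwf g) * t x * (ev x (pwf g))⁻¹)
      exact_mod_cast h1
    have hAs : (#A : ℝ) ≤ s := hsup x hx
    have hsum : (∑ g, (d g : ℝ)) ≤ s ^ 2 * (2 * 2 ^ T / n) := by
      have h1 : ∑ g, d g ≤ ∑ b ∈ A, ∑ a ∈ A,
          #{g : Fin T → Fin 2 | ev x (pwf g) a = b} := by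
        calc ∑ g, d g ≤ ∑ g : Fin T → Fin 2, ∑ b ∈ A, ∑ a ∈ A,
              (if ev x (pwf g) a = b then 1 else 0) := sum_le_sum fun g _ => inter_le _ _
          _ = ∑ b ∈ A, ∑ a ∈ A, ∑ g : Fin T → Fin 2,
              (if ev x (pwf g) a = b then 1 else 0) := by
            rw [sum_comm]
            refine sum_congr rfl fun b _ => ?_
            rw [sum_comm]
          _ = ∑ b ∈ A, ∑ a ∈ A, #{g : Fin T → Fin 2 | ev x (pwf g) a = b} := by
            refine sum_congr rfl fun b _ => sum_congr rfl fun a _ => ?_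
            rw [card_filter]
      have h2 : (∑ g, (d g : ℝ)) ≤ ∑ b ∈ A, ∑ a ∈ A,
          (#{g : Fin T → Fin 2 | ev x (pwf g) a = b} : ℝ) := by
        exact_mod_cast h1
      have h3 : ∑ b ∈ A, ∑ a ∈ A, (#{g : Fin T → Fin 2 | ev x (pwf g) a = b} : ℝ) ≤
          ∑ b ∈ A, ∑ a ∈ A, (2 * 2 ^ T / n : ℝ) := by
        refine sum_le_sum fun b _ => sum_le_sum fun a _ => ?_
        rw [le_div_iff₀ hn0]
        exact hmix x hx a b
      refine h2.trans (h3.trans ?_)
      rw [sum_const, sum_const, nsmul_eq_mul, nsmul_eq_mul, ← mul_assoc]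
      refine mul_le_mul_of_nonneg_right ?_ (by positivity)
      rw [pow_two]
      exact mul_le_mul hAs hAs (by positivity) hs
    set G := ({g : Fin T → Fin 2 |
      6 * K * s ^ 2 / n < (#(cc (t x) (ev x (pwf g))).support : ℝ)} : Finset _) with hG
    have hGd : ∀ g ∈ G, 2 * K * s ^ 2 / n < (d g : ℝ) := by
      intro g hg
      have h1 := (mem_filter.1 hg).2
      have h2 := hcc g
      have h3 : 6 * K * s ^ 2 / n = 3 * (2 * K * s ^ 2 / n) := by ring
      rw [h3] at h1
      linarith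
    rcases hs.lt_or_eq with hs0 | hs0
    · have h1 : (#G : ℝ) * (2 * K * s ^ 2 / n) ≤ s ^ 2 * (2 * 2 ^ T / n) := by
        calc (#G : ℝ) * (2 * K * s ^ 2 / n) = ∑ g ∈ G, (2 * K * s ^ 2 / n) := by
              rw [sum_const, nsmul_eq_mul]
          _ ≤ ∑ g ∈ G, (d g : ℝ) := sum_le_sum fun g hg => (hGd g hg).le
          _ ≤ ∑ g, (d g : ℝ) := sum_le_sum_of_subset_of_nonneg (subset_univ _)
              fun _ _ _ => Nat.cast_nonneg _
          _ ≤ _ := hsum
      rw [le_div_iff₀ hK]
      have h2 : (#G : ℝ) * K * (2 * s ^ 2 / n) ≤ 2 ^ T * (2 * s ^ 2 / n) := by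
        calc (#G : ℝ) * K * (2 * s ^ 2 / n) = (#G : ℝ) * (2 * K * s ^ 2 / n) := by ring
          _ ≤ s ^ 2 * (2 * 2 ^ T / n) := h1
          _ = 2 ^ T * (2 * s ^ 2 / n) := by ring
      exact le_of_mul_le_mul_right h2 (by positivity)
    · have h1 : G = ∅ := by
        rw [eq_empty_iff_forall_notMem]
        intro g hg
        have h2 := hGd g hg
        have h3 : (#A : ℝ) ≤ 0 := by rw [hs0]; exact hAs
        have h4 : #A = 0 := by
          have : #A ≤ 0 := by exact_mod_cast h3
          omega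
        have h5 : d g = 0 := by
          have h6 : d g ≤ #A := card_le_card inter_subset_left
          omega
        rw [h5, ← hs0] at h2
        simp at h2
      rw [h1, card_empty, Nat.cast_zero]
      positivity
  -- double counting
  have hne : (Bᶜ : Finset (Fin T → Fin 2)).Nonempty := by
    rw [← card_pos, card_compl, Fintype.card_fun, Fintype.card_fin, Fintype.card_fin]
    have : 0 < 2 ^ T := by positivity
    omega
  have hcard : (2 : ℝ) ^ T ≤ 2 * (#(Bᶜ : Finset (Fin T → Fin 2)) : ℝ) := by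
    have h1 : 2 ^ T ≤ 2 * #(Bᶜ : Finset (Fin T → Fin 2)) := by
      rw [card_compl, Fintype.card_fun, Fintype.card_fin, Fintype.card_fin]
      omega
    exact_mod_cast h1
  have hdc : ∑ g ∈ (Bᶜ : Finset (Fin T → Fin 2)), (#{x ∈ X |
      6 * K * s ^ 2 / n < (#(cc (t x) (ev x (pwf g))).support : ℝ)} : ℝ) ≤
      ∑ g ∈ (Bᶜ : Finset (Fin T → Fin 2)), (2 / K * #X : ℝ) := by
    calc ∑ g ∈ (Bᶜ : Finset (Fin T → Fin 2)), (#{x ∈ X |
          6 * K * s ^ 2 / n < (#(cc (t x) (ev x (pwf g))).support : ℝ)} : ℝ)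
        ≤ ∑ g : Fin T → Fin 2, (#{x ∈ X |
          6 * K * s ^ 2 / n < (#(cc (t x) (ev x (pwf g))).support : ℝ)} : ℝ) :=
          sum_le_sum_of_subset_of_nonneg (subset_univ _) fun _ _ _ => Nat.cast_nonneg _
      _ = ∑ x ∈ X, (#{g : Fin T → Fin 2 |
          6 * K * s ^ 2 / n < (#(cc (t x) (ev x (pwf g))).support : ℝ)} : ℝ) := by
          have h1 : ∑ g : Fin T → Fin 2, #{x ∈ X |
              6 * K * s ^ 2 / n < (#(cc (t x) (ev x (pwf g))).support : ℝ)} =
              ∑ x ∈ X, #{g : Fin T → Fin 2 |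
              6 * K * s ^ 2 / n < (#(cc (t x) (ev x (pwf g))).support : ℝ)} := by
            simp only [card_filter]
            exact sum_comm
          exact_mod_cast h1
      _ ≤ ∑ x ∈ X, (2 ^ T / K : ℝ) := sum_le_sum hbad
      _ = #X * (2 ^ T / K) := by rw [sum_const, nsmul_eq_mul]
      _ ≤ #(Bᶜ : Finset (Fin T → Fin 2)) * (2 / K * #X) := by
          have h1 : (#X : ℝ) * (2 ^ T / K) = 2 ^ T * (#X / K) := by ring
          have h2 : (#(Bᶜ : Finset (Fin T → Fin 2)) : ℝ) * (2 / K * #X) =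
              2 * #(Bᶜ : Finset (Fin T → Fin 2)) * (#X / K) := by ring
          rw [h1, h2]
          exact mul_le_mul_of_nonneg_right hcard (by positivity)
      _ = ∑ g ∈ (Bᶜ : Finset (Fin T → Fin 2)), (2 / K * #X : ℝ) := by
          rw [sum_const, nsmul_eq_mul]
  obtain ⟨g, hg, h1⟩ := exists_le_of_sum_le hne hdc
  refine ⟨g, mem_compl.1 hg, ?_⟩
  convert h1

end AL516
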