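import Pool.Agent.U516.AL.Spec
import Pool.Agent.U516.P2.PkgVAR

/-!
Package VAR2 of the project AL (helper823 for helper516): correlation of a class function on the
symmetric group with its translate by an even permutation.
-/

namespace AL516
open RC14 RD516 P2516 Finset
open scoped InnerProductSpace

noncomputable section

/-- the quadratic form of `Az` on real functions -/
lemma v2_re_Az {n : ℕ} (f : Alt n → ℝ) (z : Alt n) :
    (⟪Az (RR n) z (WithLp.toLp 2 fun g => (f g : ℂ)), (WithLp.toLp 2 fun g => (f g : ℂ) : FA n)⟫_ℂ).re =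
      ∑ g, f g * f (g * z) := by
  set F : FA n := WithLp.toLp 2 fun g => (f g : ℂ) with hF
  have hFa : ∀ g, F g = (f g : ℂ) := fun g => rfl
  rw [PiLp.inner_apply, Complex.re_sum]
  have h9 : ∀ g, (⟪(Az (RR n) z F) g, F g⟫_ℂ).re =
      (1 / 2) * (f g * f (g * z)) + (1 / 2) * (f (g * z⁻¹) * f g) := by
    intro g
    have h10 : (Az (RR n) z F) g = (((1 / 2) * (f (g * z) + f (g * z⁻¹)) : ℝ) : ℂ) := by
      rw [Az_apply, PiLp.smul_apply, PiLp.add_apply, RR_apply, RR_apply, hFa, hFa, smul_eq_mul]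
      push_cast
      rfl
    rw [h10, hFa, RCLike.inner_apply, Complex.conj_ofReal, ← Complex.ofReal_mul,
      Complex.ofReal_re]
    ring
  rw [Finset.sum_congr rfl fun g _ => h9 g, Finset.sum_add_distrib, ← Finset.mul_sum,
    ← Finset.mul_sum]
  have h11 : ∑ g, f (g * z⁻¹) * f g = ∑ g, f g * f (g * z) := by
    rw [← Equiv.sum_comp (Equiv.mulRight z) fun g => f (g * z⁻¹) * f g]
    refine Finset.sum_congr rfl fun g _ => ?_
    rw [Equiv.coe_mulRight, mul_inv_cancel_right]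
  rw [h11]
  ring

lemma v2_op_conj {n : ℕ} (z k : Alt n) (v : FA n) :
    (op (RR n) k * Az (RR n) z * op (RR n) k⁻¹) v = Az (RR n) (k * z * k⁻¹) v := by
  rw [Module.End.mul_apply, Module.End.mul_apply]
  ext g
  rw [op_apply, op_apply, RR_apply, Az_apply, Az_apply]
  simp only [PiLp.smul_apply, PiLp.add_apply, RR_apply]
  have e1 : g * k * z * k⁻¹ = g * (k * z * k⁻¹) := by group
  have e2 : g * k * z⁻¹ * k⁻¹ = g * (k * z * k⁻¹)⁻¹ := by group
  rw [e1, e2]

/-- the averaged correlation -/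
theorem v2_avg_le {n : ℕ} (z : Alt n) (β : ℝ)
    (hx : ∀ (V : Type) [NormedAddCommGroup V] [InnerProductSpace ℂ V] [FiniteDimensional ℂ V]
      (ρ : Alt n →* (V ≃ₗᵢ[ℂ] V)), Irr ρ ⊤ → (∃ g v, ρ g v ≠ v) →
      ‖chr ρ z‖ ≤ β * Module.finrank ℂ V) (f : Alt n → ℝ) (h0 : ∑ g, f g = 0) :
    ∑ k : Alt n, ∑ g, f g * f (g * (k * z * k⁻¹)) ≤ Fintype.card (Alt n) * β * ∑ g, f g ^ 2 := by
  set F : FA n := WithLp.toLp 2 fun g => (f g : ℂ) with hF
  have hFa : ∀ g, F g = (f g : ℂ) := fun g => rfl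
  have h0' : F ∈ V0 n := by
    rw [mem_V0]
    simp only [hFa]
    rw [← Complex.ofReal_sum, h0, Complex.ofReal_zero]
  have h1 := cavgz_le z β hx F h0'
  have h2 : (⟪cavg (RR n) (Az (RR n) z) F, F⟫_ℂ).re =
      ∑ k : Alt n, ∑ g, f g * f (g * (k * z * k⁻¹)) := by
    unfold cavg
    rw [LinearMap.sum_apply, sum_inner, Complex.re_sum]
    refine Finset.sum_congr rfl fun k _ => ?_
    rw [v2_op_conj, hF, v2_re_Az]
  have h7 : ‖F‖ ^ 2 = ∑ g, f g ^ 2 := by
    rw [EuclideanSpace.norm_sq_eq]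
    refine Finset.sum_congr rfl fun g _ => ?_
    rw [hFa, Complex.norm_real, Real.norm_eq_abs, sq_abs]
  rw [h2, h7] at h1
  exact h1

/-- the permutations of given sign -/
lemma v2_sum_sign {n : ℕ} {s : ℤˣ} {τ : Equiv.Perm (Fin n)} (hτ : Equiv.Perm.sign τ = s)
    (φ : Equiv.Perm (Fin n) → ℝ) :
    ∑ g with Equiv.Perm.sign g = s, φ g = ∑ h : Alt n, φ ((h : Equiv.Perm (Fin n)) * τ) := by
  symm
  refine Finset.sum_bij (fun h _ => (h : Equiv.Perm (Fin n)) * τ) ?_ ?_ ?_ ?_
  · intro h _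
    rw [Finset.mem_filter]
    refine ⟨Finset.mem_univ _, ?_⟩
    have h1 : Equiv.Perm.sign (h : Equiv.Perm (Fin n)) = 1 := Equiv.Perm.mem_alternatingGroup.1 h.2
    rw [Equiv.Perm.sign_mul, h1, one_mul, hτ]
  · intro a _ b _ hab
    exact Subtype.ext (mul_right_cancel hab)
  · intro g hg
    rw [Finset.mem_filter] at hg
    refine ⟨⟨g * τ⁻¹, ?_⟩, Finset.mem_univ _, ?_⟩
    · rw [Equiv.Perm.mem_alternatingGroup, Equiv.Perm.sign_mul, Equiv.Perm.sign_inv, hg.2, hτ,
        Int.units_mul_self]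
    · simp
  · intro h _
    rfl

/-- conjugation does not change the sums over the permutations of given sign -/
lemma v2_sum_conj {n : ℕ} (s : ℤˣ) (m : Equiv.Perm (Fin n)) (φ : Equiv.Perm (Fin n) → ℝ) :
    ∑ g with Equiv.Perm.sign g = s, φ (m⁻¹ * g * m) = ∑ g with Equiv.Perm.sign g = s, φ g := by
  have hs : ∀ g : Equiv.Perm (Fin n), Equiv.Perm.sign (m⁻¹ * g * m) = Equiv.Perm.sign g := by
    intro g
    rw [Equiv.Perm.sign_mul, Equiv.Perm.sign_mul, Equiv.Perm.sign_inv, mul_comm, ← mul_assoc,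
      Int.units_mul_self, one_mul]
  refine Finset.sum_bij (fun g _ => m⁻¹ * g * m) ?_ ?_ ?_ ?_
  · intro g hg
    rw [Finset.mem_filter] at hg ⊢
    exact ⟨Finset.mem_univ _, by rw [hs]; exact hg.2⟩
  · intro a _ b _ hab
    exact mul_left_cancel (mul_right_cancel hab)
  · intro g hg
    rw [Finset.mem_filter] at hg
    refine ⟨m * g * m⁻¹, ?_, ?_⟩
    · rw [Finset.mem_filter]
      refine ⟨Finset.mem_univ _, ?_⟩
      rw [← hs, ← hg.2]
      congr 1
      group
    · group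
  · intro g _
    rfl

lemma v2_nfix_conj {n : ℕ} (τ z : Equiv.Perm (Fin n)) : nfix (τ * z * τ⁻¹) = nfix z := by
  unfold nfix
  refine Finset.card_bij (fun a _ => τ⁻¹ a) ?_ ?_ ?_
  · intro a ha
    rw [Finset.mem_filter] at ha ⊢
    refine ⟨Finset.mem_univ _, ?_⟩
    have h1 : τ (z (τ⁻¹ a)) = a := ha.2
    rw [Equiv.Perm.eq_inv_iff_eq, h1]
  · intro a _ b _ hab
    exact τ⁻¹.injective hab
  · intro b hb
    rw [Finset.mem_filter] at hb
    refine ⟨τ b, ?_, by simp⟩
    rw [Finset.mem_filter]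
    refine ⟨Finset.mem_univ _, ?_⟩
    show τ (z (τ⁻¹ (τ b))) = τ b
    have h1 : τ⁻¹ (τ b) = b := by simp
    rw [h1, hb.2]

/-- package VAR2 -/
theorem t_VAR2 : S_VAR2 := by
  intro n z β hβ hx f hcl h0
  have hcl2 : ∀ g m : Equiv.Perm (Fin n), f (m⁻¹ * g * m) = f g := by
    intro g m
    rw [mul_assoc, hcl, mul_assoc, mul_inv_cancel, mul_one]
  have hmain : ∀ s : ℤˣ, ∑ g with Equiv.Perm.sign g = s, f g * f (g * z) ≤
      β * ∑ g with Equiv.Perm.sign g = s, f g ^ 2 := by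
    intro s
    by_cases hs : ∃ τ : Equiv.Perm (Fin n), Equiv.Perm.sign τ = s
    · obtain ⟨τ, hτ⟩ := hs
      set F : Alt n → ℝ := fun h => f ((h : Equiv.Perm (Fin n)) * τ) with hF
      have hz : Equiv.Perm.sign (z : Equiv.Perm (Fin n)) = 1 := Equiv.Perm.mem_alternatingGroup.1 z.2
      have hz' : τ * (z : Equiv.Perm (Fin n)) * τ⁻¹ ∈ alternatingGroup (Fin n) := by
        rw [Equiv.Perm.mem_alternatingGroup, Equiv.Perm.sign_mul, Equiv.Perm.sign_mul,
          Equiv.Perm.sign_inv, hz, mul_one, Int.units_mul_self]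
      set z' : Alt n := ⟨τ * (z : Equiv.Perm (Fin n)) * τ⁻¹, hz'⟩ with hz'def
      have h1 : ∑ g, F g = 0 := by
        rw [← h0 s, v2_sum_sign hτ f]
      have h2 := v2_avg_le z' β (fun V _ _ _ ρ h3 h4 => hx z' (v2_nfix_conj τ _) V ρ h3 h4) F h1
      have h3 : ∀ k : Alt n, ∑ g, F g * F (g * (k * z' * k⁻¹)) =
          ∑ g with Equiv.Perm.sign g = s, f g * f (g * z) := by
        intro k
        set m : Equiv.Perm (Fin n) := τ⁻¹ * (k : Equiv.Perm (Fin n)) * τ with hm
        have h4 : ∀ h : Alt n, F h * F (h * (k * z' * k⁻¹)) =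
            (fun g : Equiv.Perm (Fin n) => (fun g' => f g' * f (g' * z)) (m⁻¹ * g * m))
              ((h : Equiv.Perm (Fin n)) * τ) := by
          intro h
          simp only [hF]
          rw [hcl2]
          congr 1
          rw [← hcl2 (((h * (k * z' * k⁻¹) : Alt n) : Equiv.Perm (Fin n)) * τ) m]
          congr 1
          rw [hm, hz'def]
          push_cast
          group
        rw [Finset.sum_congr rfl fun h _ => h4 h, ← v2_sum_sign hτ
          (fun g : Equiv.Perm (Fin n) => (fun g' => f g' * f (g' * z)) (m⁻¹ * g * m))]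
        exact v2_sum_conj s m (fun g' => f g' * f (g' * z))
      rw [Finset.sum_congr rfl fun k _ => h3 k, Finset.sum_const, Finset.card_univ, nsmul_eq_mul,
        mul_assoc] at h2
      have hN : (0 : ℝ) < Fintype.card (Alt n) := by exact_mod_cast Fintype.card_pos
      have h5 := le_of_mul_le_mul_left h2 hN
      rw [v2_sum_sign hτ fun g => f g ^ 2]
      exact h5
    · have h1 : (univ.filter fun g : Equiv.Perm (Fin n) => Equiv.Perm.sign g = s) = ∅ := by
        rw [Finset.filter_eq_empty_iff]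
        intro g _ hg
        exact hs ⟨g, hg⟩
      rw [h1, Finset.sum_empty, Finset.sum_empty, mul_zero]
  rw [← Finset.sum_fiberwise univ (fun g => Equiv.Perm.sign g) (fun g => f g * f (g * z)),
    ← Finset.sum_fiberwise univ (fun g => Equiv.Perm.sign g) (fun g => f g ^ 2), Finset.mul_sum]
  exact Finset.sum_le_sum fun s _ => hmain s

end

end AL516
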