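import Pool.Agent.U516.AL.Spec

/-!
Project AL, package SEC2: the second moment argument for pairs of permutations (after
Pool/Agent/U516/P2/PkgSEC.lean of helper981)
-/

set_option autoImplicit false

namespace AL516
open RC14 P2516 Finset Filter Topology
open Pool.Agent.R236.Den

namespace SEC2

theorem powSmall_conj {n : ℕ} {d : ℝ} {g : Equiv.Perm (Fin n)} (u : Equiv.Perm (Fin n))
    (h : PowSmall d g) : PowSmall d (u * g * u⁻¹) := by
  obtain ⟨m, h1, h2, h3⟩ := h
  refine ⟨m, h1, h2, ?_⟩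
  rw [conj_pow, Equiv.Perm.card_support_conj]
  exact h3

theorem powSmall_comm {n : ℕ} {d : ℝ} (g h : Equiv.Perm (Fin n)) :
    PowSmall d (g * h) ↔ PowSmall d (h * g) := by
  constructor
  · intro h1
    have h2 := powSmall_conj g⁻¹ h1
    have e : g⁻¹ * (g * h) * g⁻¹⁻¹ = h * g := by group
    rwa [e] at h2
  · intro h1
    have h2 := powSmall_conj g h1
    have e : g * (h * g) * g⁻¹ = g * h := by group
    rwa [e] at h2

open Classical in
theorem core {n : ℕ} (s : ℤˣ) (E : Finset (Equiv.Perm (Fin n)))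
    (hEs : ∀ g ∈ E, Equiv.Perm.sign g = s)
    (hE : ∀ g h : Equiv.Perm (Fin n), g * h ∈ E ↔ h * g ∈ E) (β : ℝ) (hβ : 0 ≤ β)
    (hE0 : 0 < #E) (w : Equiv.Perm (Fin n)) (hw : Equiv.Perm.sign w = 1) (M : ℕ)
    (hy : ∀ i : ℕ, 1 ≤ i → i ≤ M → ∀ f : Equiv.Perm (Fin n) → ℝ,
      (∀ g h, f (g * h) = f (h * g)) →
      (∀ s : ℤˣ, ∑ g with Equiv.Perm.sign g = s, f g = 0) →
      ∑ g, f g * f (g * w ^ i) ≤ β * ∑ g, f g ^ 2) :
    (#{g : Equiv.Perm (Fin n) | Equiv.Perm.sign g = s ∧ ¬ ∃ i ≤ M, g * w ^ i ∈ E} : ℝ) * #E ≤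
      (1 / ((M : ℝ) + 1) + β) * (n.factorial : ℝ) ^ 2 := by
  set D : ℝ := (#E : ℝ) with hD
  have hD0 : 0 < D := by rw [hD]; exact_mod_cast hE0
  set H : ℝ := (#{g : Equiv.Perm (Fin n) | Equiv.Perm.sign g = s} : ℝ) with hH
  have hEH : E ⊆ ({g : Equiv.Perm (Fin n) | Equiv.Perm.sign g = s} : Finset _) := by
    intro g hg
    exact mem_filter.2 ⟨mem_univ _, hEs g hg⟩
  have hDH : D ≤ H := by
    rw [hD, hH]
    exact_mod_cast card_le_card hEH
  have hH0 : 0 < H := hD0.trans_le hDH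
  have hHn : H ≤ n.factorial := by
    have h1 : #{g : Equiv.Perm (Fin n) | Equiv.Perm.sign g = s} ≤ n.factorial := by
      refine (card_le_univ _).trans ?_
      rw [Fintype.card_perm, Fintype.card_fin]
    rw [hH]
    exact_mod_cast h1
  obtain ⟨d, hd⟩ : ∃ d : ℝ, d = D / H := ⟨_, rfl⟩
  have hd0 : 0 < d := by rw [hd]; positivity
  have hdH : d * H = D := by rw [hd]; field_simp
  obtain ⟨f, hf⟩ : ∃ f : Equiv.Perm (Fin n) → ℝ, f = fun g => (if g ∈ E then (1 : ℝ) else 0) -
      d * (if Equiv.Perm.sign g = s then 1 else 0) := ⟨_, rfl⟩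
  have hcl : ∀ g h, f (g * h) = f (h * g) := by
    intro g h
    simp only [hf, hE g h, Equiv.Perm.sign_mul, mul_comm (Equiv.Perm.sign g)]
  have hs : ∀ s' : ℤˣ, ∑ g with Equiv.Perm.sign g = s', f g = 0 := by
    intro s'
    by_cases hs' : s' = s
    · subst hs'
      have h1 : ∑ g with Equiv.Perm.sign g = s', f g =
          ∑ g with Equiv.Perm.sign g = s', ((if g ∈ E then (1 : ℝ) else 0) - d) := by
        refine sum_congr rfl fun g hg => ?_
        rw [hf]
        simp only [(mem_filter.1 hg).2, if_true, mul_one]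
      rw [h1, sum_sub_distrib, sum_const, nsmul_eq_mul, sum_boole]
      have h2 : ({g : Equiv.Perm (Fin n) | Equiv.Perm.sign g = s'} : Finset _).filter (fun g => g ∈ E) = E := by
        ext g
        simp only [mem_filter, mem_univ, true_and]
        exact ⟨fun h => h.2, fun h => ⟨hEs g h, h⟩⟩
      rw [h2, ← hH, mul_comm, hdH, ← hD, sub_self]
    · refine sum_eq_zero fun g hg => ?_
      have h1 := (mem_filter.1 hg).2
      have h2 : g ∉ E := fun h => hs' (by rw [← h1, hEs g h])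
      rw [hf]
      simp only [if_neg h2, h1, if_neg hs', mul_zero, sub_zero]
  have hf2 : ∑ g, f g ^ 2 ≤ D := by
    have h1 : ∀ g, f g ^ 2 = (if g ∈ E then (1 : ℝ) else 0) * (1 - 2 * d) +
        d ^ 2 * (if Equiv.Perm.sign g = s then 1 else 0) := by
      intro g
      rw [hf]
      by_cases h : g ∈ E
      · simp only [if_pos h, if_pos (hEs g h)]
        ring
      · simp only [if_neg h]
        split_ifs <;> ring
    simp only [h1, sum_add_distrib, ← sum_mul, ← mul_sum, sum_boole]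
    have h2 : (univ.filter fun g : Equiv.Perm (Fin n) => g ∈ E) = E := by
      ext g
      simp
    rw [h2, ← hH, ← hD]
    have h3 : d ^ 2 * H = d * D := by rw [← hdH]; ring
    rw [h3]
    nlinarith [mul_pos hd0 hD0]
  -- the correlations
  have hlt : ∀ i j : ℕ, i < j → j ≤ M → ∑ g, f (g * w ^ i) * f (g * w ^ j) ≤ β * D := by
    intro i j hij hj
    have h1 : ∑ g, f (g * w ^ i) * f (g * w ^ j) = ∑ g, f g * f (g * w ^ (j - i)) := by
      rw [← Equiv.sum_comp (Equiv.mulRight (w ^ i)) (fun g => f g * f (g * w ^ (j - i)))]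
      refine sum_congr rfl fun g _ => ?_
      simp only [Equiv.coe_mulRight]
      rw [mul_assoc g, ← pow_add, Nat.add_sub_cancel' hij.le]
    rw [h1]
    exact (hy (j - i) (by omega) (by omega) f hcl hs).trans (mul_le_mul_of_nonneg_left hf2 hβ)
  have hij : ∀ i ∈ range (M + 1), ∀ j ∈ range (M + 1), ∑ g, f (g * w ^ i) * f (g * w ^ j) ≤
      (if i = j then D else 0) + β * D := by
    intro i hi j hj
    rw [mem_range] at hi hj
    rcases lt_trichotomy i j with h | h | h
    · rw [if_neg h.ne, zero_add]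
      exact hlt i j h (by omega)
    · subst h
      rw [if_pos rfl]
      have h1 : ∑ g, f (g * w ^ i) * f (g * w ^ i) = ∑ g, f g ^ 2 := by
        rw [← Equiv.sum_comp (Equiv.mulRight (w ^ i)) (fun g => f g ^ 2)]
        refine sum_congr rfl fun g _ => ?_
        simp only [Equiv.coe_mulRight]
        ring
      rw [h1]
      have : 0 ≤ β * D := by positivity
      linarith
    · rw [if_neg h.ne', zero_add]
      have h1 := hlt j i h (by omega)
      refine le_trans (le_of_eq ?_) h1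
      exact sum_congr rfl fun g _ => mul_comm _ _
  have hS : ∑ g, (∑ i ∈ range (M + 1), f (g * w ^ i)) ^ 2 ≤
      D * (((M : ℝ) + 1) + ((M : ℝ) + 1) ^ 2 * β) := by
    calc ∑ g, (∑ i ∈ range (M + 1), f (g * w ^ i)) ^ 2
        = ∑ i ∈ range (M + 1), ∑ j ∈ range (M + 1), ∑ g, f (g * w ^ i) * f (g * w ^ j) := by
          simp only [sq, sum_mul_sum]
          rw [sum_comm]
          refine sum_congr rfl fun i _ => ?_
          rw [sum_comm]
      _ ≤ ∑ i ∈ range (M + 1), ∑ j ∈ range (M + 1), ((if i = j then D else 0) + β * D) :=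
          sum_le_sum fun i hi => sum_le_sum fun j hj => hij i hi j hj
      _ = _ := by
          simp only [sum_add_distrib, sum_ite_eq, sum_const, card_range, nsmul_eq_mul]
          rw [sum_ite_mem, inter_self, sum_const, card_range, nsmul_eq_mul]
          push_cast
          ring
  have hM0 : (0 : ℝ) < (M : ℝ) + 1 := by positivity
  obtain ⟨X, hX⟩ : ∃ X : ℝ, X = (#{g : Equiv.Perm (Fin n) | Equiv.Perm.sign g = s ∧
      ¬ ∃ i ≤ M, g * w ^ i ∈ E} : ℝ) := ⟨_, rfl⟩
  have hbad : X * (((M : ℝ) + 1) ^ 2 * d ^ 2) ≤ D * (((M : ℝ) + 1) + ((M : ℝ) + 1) ^ 2 * β) := by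
    refine le_trans ?_ hS
    rw [hX]
    calc (#{g : Equiv.Perm (Fin n) | Equiv.Perm.sign g = s ∧ ¬ ∃ i ≤ M, g * w ^ i ∈ E} : ℝ) *
          (((M : ℝ) + 1) ^ 2 * d ^ 2)
        = ∑ _g ∈ ({g : Equiv.Perm (Fin n) | Equiv.Perm.sign g = s ∧
            ¬ ∃ i ≤ M, g * w ^ i ∈ E} : Finset _), (((M : ℝ) + 1) ^ 2 * d ^ 2) := by
          rw [sum_const, nsmul_eq_mul]
      _ ≤ ∑ g ∈ ({g : Equiv.Perm (Fin n) | Equiv.Perm.sign g = s ∧
            ¬ ∃ i ≤ M, g * w ^ i ∈ E} : Finset _),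
            (∑ i ∈ range (M + 1), f (g * w ^ i)) ^ 2 := by
          refine sum_le_sum fun g hg => ?_
          obtain ⟨hg1, hg'⟩ := (mem_filter.1 hg).2
          have h1 : ∑ i ∈ range (M + 1), f (g * w ^ i) = -(((M : ℝ) + 1) * d) := by
            have h2 : ∀ i ∈ range (M + 1), f (g * w ^ i) = -d := by
              intro i hi
              rw [mem_range] at hi
              have h3 : Equiv.Perm.sign (g * w ^ i) = s := by
                rw [Equiv.Perm.sign_mul, map_pow, hw, one_pow, mul_one, hg1]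
              rw [hf]
              simp only [h3, if_true, mul_one]
              rw [if_neg (fun h => hg' ⟨i, by omega, h⟩), zero_sub]
            rw [sum_congr rfl h2, sum_const, card_range, nsmul_eq_mul]
            push_cast
            ring
          rw [h1, neg_sq, mul_pow]
      _ ≤ ∑ g, (∑ i ∈ range (M + 1), f (g * w ^ i)) ^ 2 :=
          sum_le_sum_of_subset_of_nonneg (subset_univ _) fun g _ _ => sq_nonneg _
  rw [← hX]
  -- `d = D / H`
  have h1 : X * D ≤ (1 / ((M : ℝ) + 1) + β) * H ^ 2 := by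
    have h2 : (X * D) * (((M : ℝ) + 1) ^ 2 * d) ≤
        ((1 / ((M : ℝ) + 1) + β) * H ^ 2) * (((M : ℝ) + 1) ^ 2 * d) := by
      have e1 : (X * D) * (((M : ℝ) + 1) ^ 2 * d) = X * (((M : ℝ) + 1) ^ 2 * d ^ 2) * H := by
        rw [← hdH]; ring
      have e2 : ((1 / ((M : ℝ) + 1) + β) * H ^ 2) * (((M : ℝ) + 1) ^ 2 * d) =
          D * (((M : ℝ) + 1) + ((M : ℝ) + 1) ^ 2 * β) * H := by
        rw [← hdH]
        field_simp
      rw [e1, e2]
      exact mul_le_mul_of_nonneg_right hbad hH0.le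
    exact le_of_mul_le_mul_right h2 (by positivity)
  refine h1.trans (mul_le_mul_of_nonneg_left ?_ (by positivity))
  exact pow_le_pow_left₀ hH0.le hHn 2

theorem num (b : ℝ) (hb : 0 < b) (δ : ℝ) (hδ : 0 < δ) : ∀ᶠ n : ℕ in atTop,
    √(Real.log n) * (1 / Real.log n + (n : ℝ) ^ (-b)) ≤ δ ∧
      2 * Real.log n ≤ (n : ℝ) ^ (1 / 8 : ℝ) ∧ 4 ≤ Real.log n ∧ 8 * √(Real.log n) ≤ n := by
  have h1 : Tendsto (fun n : ℕ => Real.log n) atTop atTop :=
    Real.tendsto_log_atTop.comp tendsto_natCast_atTop_atTop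
  have h2 : Tendsto (fun n : ℕ => (√(Real.log n))⁻¹) atTop (𝓝 0) :=
    tendsto_inv_atTop_zero.comp (Real.tendsto_sqrt_atTop.comp h1)
  have h5 := (isLittleO_log_rpow_atTop (by norm_num : (0 : ℝ) < 1 / 8)).bound
    (c := 1 / 2) (by norm_num)
  have h6 := tendsto_natCast_atTop_atTop.eventually h5
  have h7 := (isLittleO_log_rpow_atTop hb).bound (c := δ / 2) (by positivity)
  have h8 := tendsto_natCast_atTop_atTop.eventually h7
  have h9 := (isLittleO_log_rpow_atTop (by norm_num : (0 : ℝ) < 1)).bound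
    (c := 1 / 8) (by norm_num)
  have h10 := tendsto_natCast_atTop_atTop.eventually h9
  filter_upwards [h2.eventually_le_const (by positivity : (0 : ℝ) < δ / 2), h6, h8, h10,
    h1.eventually_ge_atTop 4, eventually_gt_atTop 0] with n a1 a2 a3 a4 a5 a6
  have hn : (0 : ℝ) < n := by exact_mod_cast a6
  obtain ⟨L, hL⟩ : ∃ L : ℝ, L = Real.log n := ⟨_, rfl⟩
  rw [← hL] at a1 a2 a3 a4 a5 ⊢
  have hL0 : 0 < L := by linarith
  have hs0 : 0 < √L := Real.sqrt_pos.2 hL0
  have hsL : √L * √L = L := Real.mul_self_sqrt hL0.le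
  have hs1 : 1 ≤ √L := by
    rw [← Real.sqrt_one]
    exact Real.sqrt_le_sqrt (by linarith)
  have hsL2 : √L ≤ L := by nlinarith
  rw [Real.norm_eq_abs, Real.norm_eq_abs, abs_of_nonneg (by linarith),
    abs_of_nonneg (by positivity)] at a2 a3 a4
  rw [Real.rpow_one] at a4
  refine ⟨?_, by linarith, a5, by linarith⟩
  have e1 : √L * (1 / L) = (√L)⁻¹ := by
    rw [← hsL]
    field_simp
    rw [Real.sqrt_sq hs0.le]
  have e2 : √L * (n : ℝ) ^ (-b) ≤ δ / 2 := by
    have hp : 0 < (n : ℝ) ^ b := Real.rpow_pos_of_pos hn b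
    rw [Real.rpow_neg hn.le, ← div_eq_mul_inv, div_le_iff₀ hp]
    linarith
  rw [mul_add, e1]
  linarith

end SEC2

open SEC2

open Classical in
/-- package SEC2 -/
theorem t_SEC2 : S_DEN → S_VAR2 → P2516.S_RAT → S_FFP → S_SEC2 := by
  intro hDEN hV hRAT hF e he
  obtain ⟨b, hb, hR⟩ := hRAT
  have hF' := hF (e / 2) (by positivity)
  filter_upwards [hR, hF', num b hb (e / 32) (by positivity)] with n hRn hFn hn
  obtain ⟨hn1, hn2, hn3, hn4⟩ := hn
  set M : ℕ := ⌊Real.log n⌋₊ with hM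
  obtain ⟨L, hL⟩ : ∃ L : ℝ, L = Real.log n := ⟨_, rfl⟩
  have hL0 : 0 < L := by rw [hL]; linarith
  have hs0 : 0 < √L := Real.sqrt_pos.2 hL0
  have hs2 : 2 ≤ √L := by
    have : √(4 : ℝ) = 2 := by
      rw [show (4 : ℝ) = 2 ^ 2 by norm_num]
      exact Real.sqrt_sq (by norm_num)
    rw [← this]
    exact Real.sqrt_le_sqrt (by rw [hL]; exact hn3)
  have hML : (M : ℝ) ≤ L := by rw [hL]; exact Nat.floor_le (by linarith)
  have hfac : (0 : ℝ) < n.factorial := by exact_mod_cast n.factorial_pos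
  obtain ⟨dd, hdd⟩ : ∃ dd : ℝ, dd = n / Real.sqrt (Real.log n) := ⟨_, rfl⟩
  -- the sets
  let E : ℤˣ → Finset (Equiv.Perm (Fin n)) := fun s =>
    univ.filter fun g => Equiv.Perm.sign g = s ∧ PowSmall dd g
  have hEcard : ∀ s, 1 / (8 * √L) * (n.factorial : ℝ) ≤ #(E s) := by
    intro s
    have h1 := hDEN n (1 / √L) s (by positivity) (by
      rw [div_le_div_iff₀ hs0 (by norm_num)]; linarith) (by
      rw [div_mul_eq_mul_div, one_mul, le_div_iff₀ hs0, hL]
      exact hn4)
    rw [Nat.card_eq_fintype_card, Fintype.card_subtype] at h1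
    have e1 : 1 / √L * (n : ℝ) = dd := by rw [hdd, ← hL]; ring
    rw [e1] at h1
    have e2 : 1 / √L / 8 = 1 / (8 * √L) := by field_simp
    rw [e2] at h1
    exact h1
  have hE0 : ∀ s, 0 < #(E s) := by
    intro s
    have h1 := hEcard s
    have h2 : 0 < 1 / (8 * √L) * (n.factorial : ℝ) := by positivity
    exact_mod_cast h2.trans_le h1
  let good : Equiv.Perm (Fin n) → Prop := fun y => ∀ i : ℕ, 1 ≤ i → i ≤ M →
    nfix (y ^ (2 * i)) ≤ ⌈(n : ℝ) ^ (1 / 2 : ℝ)⌉₊
  have hgood : ∀ x : Pr n, FewFixK n ⌊(n : ℝ) ^ (1 / 8 : ℝ)⌋₊ ⌈(n : ℝ) ^ (1 / 2 : ℝ)⌉₊ x →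
      good (x 1) := by
    intro x hx i hi hiM
    have h0 : (FreeGroup.of (1 : Fin 2) ^ (2 * i)).norm = 2 * i := FreeGroup.norm_of_pow _ _
    have h1 := hx (FreeGroup.of 1 ^ (2 * i)) (by
      intro h
      rw [h, FreeGroup.norm_one] at h0
      omega) (by
      rw [h0]
      apply Nat.le_floor
      push_cast
      have : (i : ℝ) ≤ M := by exact_mod_cast hiM
      rw [hL] at hML
      linarith)
    rw [map_pow, FreeGroup.lift_apply_of] at h1
    exact h1.le
  have hbad1 : ∀ y, good y → ∀ s : ℤˣ, (#{g : Equiv.Perm (Fin n) | Equiv.Perm.sign g = s ∧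
      ¬ ∃ i ≤ M, g * (y ^ 2) ^ i ∈ E s} : ℝ) ≤ n.factorial * (e / 4) := by
    intro y hy s
    have hw : Equiv.Perm.sign (y ^ 2) = 1 := by
      rw [map_pow, Int.units_sq]
    have h := core s (E s) (fun g hg => (mem_filter.1 hg).2.1) (by
        intro g h
        simp only [E, mem_filter, mem_univ, true_and, Equiv.Perm.sign_mul,
          mul_comm (Equiv.Perm.sign g), powSmall_comm g h])
      ((n : ℝ) ^ (-b)) (by positivity) (hE0 s) (y ^ 2) hw M (by
        intro i hi hiM f hf1 hf2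
        have hsg : Equiv.Perm.sign ((y ^ 2) ^ i) = 1 := by rw [map_pow, hw, one_pow]
        have h1 := hV n ⟨(y ^ 2) ^ i, by rw [Equiv.Perm.mem_alternatingGroup]; exact hsg⟩
          ((n : ℝ) ^ (-b)) (by positivity) (by
            intro z' hz'
            refine hRn z' ?_
            rw [hz']
            have h2 := hy i hi hiM
            rw [pow_mul] at h2
            exact h2) f hf1 hf2
        exact h1)
    set X : ℝ := (#{g : Equiv.Perm (Fin n) | Equiv.Perm.sign g = s ∧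
      ¬ ∃ i ≤ M, g * (y ^ 2) ^ i ∈ E s} : ℝ) with hX
    have hX0 : 0 ≤ X := by rw [hX]; positivity
    have hM1 : Real.log n ≤ (M : ℝ) + 1 := (Nat.lt_floor_add_one _).le
    have h2 : 1 / ((M : ℝ) + 1) ≤ 1 / Real.log n :=
      one_div_le_one_div_of_le (by linarith) hM1
    have h3 : X * (1 / (8 * √L) * (n.factorial : ℝ)) ≤
        (1 / Real.log n + (n : ℝ) ^ (-b)) * (n.factorial : ℝ) ^ 2 :=
      (mul_le_mul_of_nonneg_left (hEcard s) hX0).trans
        (h.trans (mul_le_mul_of_nonneg_right (by linarith) (by positivity)))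
    have h4 : X ≤ 8 * (√L * (1 / Real.log n + (n : ℝ) ^ (-b))) * n.factorial := by
      have h5 : X * (1 / (8 * √L) * (n.factorial : ℝ)) ≤
          (8 * (√L * (1 / Real.log n + (n : ℝ) ^ (-b))) * n.factorial) *
            (1 / (8 * √L) * (n.factorial : ℝ)) := by
        refine h3.trans (le_of_eq ?_)
        field_simp
      exact le_of_mul_le_mul_right h5 (by positivity)
    refine h4.trans ?_
    rw [hL]
    have h6 : 8 * (√(Real.log n) * (1 / Real.log n + (n : ℝ) ^ (-b))) ≤ e / 4 := by linarith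
    rw [mul_comm (n.factorial : ℝ)]
    exact mul_le_mul_of_nonneg_right h6 hfac.le
  have hbad : ∀ y, good y → (#{g : Equiv.Perm (Fin n) | ¬ ∃ i ≤ M,
      PowSmall dd (g * y ^ (2 * i))} : ℝ) ≤ n.factorial * (e / 2) := by
    intro y hy
    have hsub : ({g : Equiv.Perm (Fin n) | ¬ ∃ i ≤ M, PowSmall dd (g * y ^ (2 * i))} : Finset _) ⊆
        ({g : Equiv.Perm (Fin n) | Equiv.Perm.sign g = 1 ∧
          ¬ ∃ i ≤ M, g * (y ^ 2) ^ i ∈ E 1} : Finset _) ∪
        ({g : Equiv.Perm (Fin n) | Equiv.Perm.sign g = -1 ∧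
          ¬ ∃ i ≤ M, g * (y ^ 2) ^ i ∈ E (-1)} : Finset _) := by
      intro g hg
      have hg' := (mem_filter.1 hg).2
      have h1 : ∀ s, ¬ ∃ i ≤ M, g * (y ^ 2) ^ i ∈ E s := by
        rintro s ⟨i, hi, h2⟩
        refine hg' ⟨i, hi, ?_⟩
        rw [pow_mul]
        exact (mem_filter.1 h2).2.2
      rcases Int.units_eq_one_or (Equiv.Perm.sign g) with h2 | h2
      · exact mem_union_left _ (mem_filter.2 ⟨mem_univ _, h2, h1 1⟩)
      · exact mem_union_right _ (mem_filter.2 ⟨mem_univ _, h2, h1 (-1)⟩)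
    have h1 := (card_le_card hsub).trans (card_union_le _ _)
    have h2 : (#{g : Equiv.Perm (Fin n) | ¬ ∃ i ≤ M, PowSmall dd (g * y ^ (2 * i))} : ℝ) ≤
        (#{g : Equiv.Perm (Fin n) | Equiv.Perm.sign g = 1 ∧
          ¬ ∃ i ≤ M, g * (y ^ 2) ^ i ∈ E 1} : ℝ) +
        (#{g : Equiv.Perm (Fin n) | Equiv.Perm.sign g = -1 ∧
          ¬ ∃ i ≤ M, g * (y ^ 2) ^ i ∈ E (-1)} : ℝ) := by exact_mod_cast h1
    have h3 := hbad1 y hy 1
    have h4 := hbad1 y hy (-1)
    linarith
  -- counting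
  rw [← hdd]
  rw [Nat.card_eq_fintype_card, Fintype.card_subtype]
  rw [Nat.card_eq_fintype_card, Fintype.card_subtype] at hFn
  set F1 : Finset (Pr n) := univ.filter fun x => ¬ FewFixK n ⌊(n : ℝ) ^ (1 / 8 : ℝ)⌋₊
      ⌈(n : ℝ) ^ (1 / 2 : ℝ)⌉₊ x with hF1
  set F2 : Finset (Pr n) := univ.filter fun x => good (x 1) ∧
      ¬ ∃ i ≤ M, PowSmall dd (x 0 * x 1 ^ (2 * i)) with hF2
  have hsub : (univ.filter fun x : Pr n => ¬ ∃ i ≤ M, PowSmall dd (x 0 * x 1 ^ (2 * i))) ⊆
      F1 ∪ F2 := by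
    intro x hx
    have hx' := (mem_filter.1 hx).2
    by_cases h : FewFixK n ⌊(n : ℝ) ^ (1 / 8 : ℝ)⌋₊ ⌈(n : ℝ) ^ (1 / 2 : ℝ)⌉₊ x
    · exact mem_union_right _ (mem_filter.2 ⟨mem_univ _, hgood x h, hx'⟩)
    · exact mem_union_left _ (mem_filter.2 ⟨mem_univ _, h⟩)
  have hcP : Fintype.card (Equiv.Perm (Fin n)) = n.factorial := by
    rw [Fintype.card_perm, Fintype.card_fin]
  have hc2 : (#F2 : ℝ) ≤ (e / 2) * (n.factorial : ℝ) ^ 2 := by
    rw [card_eq_sum_card_fiberwise (f := fun x : Pr n => x 1) (t := univ)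
      (fun x _ => mem_univ _)]
    push_cast
    calc ∑ y : Equiv.Perm (Fin n), (#{x ∈ F2 | x 1 = y} : ℝ) ≤
          ∑ _y : Equiv.Perm (Fin n), (n.factorial : ℝ) * (e / 2) := by
          refine sum_le_sum fun y _ => ?_
          by_cases hy : good y
          · refine le_trans ?_ (hbad y hy)
            have h1 : #{x ∈ F2 | x 1 = y} ≤ #{g : Equiv.Perm (Fin n) | ¬ ∃ i ≤ M,
                PowSmall dd (g * y ^ (2 * i))} := by
              refine card_le_card_of_injOn (fun x => x 0) ?_ ?_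
              · intro x hx
                have hx1 := mem_filter.1 hx
                have hx2 := (mem_filter.1 hx1.1).2.2
                rw [hx1.2] at hx2
                exact mem_filter.2 ⟨mem_univ _, hx2⟩
              · intro x hx x' hx' h
                have hx1 := (mem_filter.1 hx).2
                have hx2 := (mem_filter.1 hx').2
                funext i
                fin_cases i
                · exact h
                · exact hx1.trans hx2.symm
            exact_mod_cast h1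
          · have h1 : #{x ∈ F2 | x 1 = y} = 0 := by
              rw [card_eq_zero, filter_eq_empty_iff]
              intro x hx h
              apply hy
              rw [← h]
              exact (mem_filter.1 hx).2.1
            rw [h1]
            push_cast
            positivity
      _ = (e / 2) * (n.factorial : ℝ) ^ 2 := by
          rw [sum_const, card_univ, nsmul_eq_mul, hcP]
          ring
  have h1 : (#(univ.filter fun x : Pr n => ¬ ∃ i ≤ M, PowSmall dd (x 0 * x 1 ^ (2 * i))) : ℝ) ≤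
      #F1 + #F2 := by
    exact_mod_cast (card_le_card hsub).trans (card_union_le _ _)
  calc _ ≤ (#F1 : ℝ) + #F2 := h1
    _ ≤ (e / 2) * (n.factorial : ℝ) ^ 2 + (e / 2) * (n.factorial : ℝ) ^ 2 :=
        add_le_add hFn hc2
    _ = e * (n.factorial : ℝ) ^ 2 := by ring

end AL516
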