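import Pool.Agent.U516.P2.Spec

/-!
Project AL (helper516), MP_99279c_al: words of length `n ^ 3 (log n) ^ 6` which are laws for almost
all pairs of `Sym(n)`.  Statements of the packages.
-/

namespace AL516
open RC14 P2516 Finset Filter Topology
open Pool.Agent.R236.Den

noncomputable section

/-- the free group on two generators -/
abbrev F2 := FreeGroup (Fin 2)

/-- the pairs of permutations -/
abbrev Pr (n : ℕ) := Fin 2 → Equiv.Perm (Fin n)

/-- the value of a word at a pair of permutations -/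
abbrev ev {n : ℕ} (x : Pr n) : F2 →* Equiv.Perm (Fin n) := FreeGroup.lift x

/-- the positive word with the letters `g 0, ..., g (T - 1)` (`g 0` acts first) -/
def pw (g : ℕ → Fin 2) : ℕ → F2
  | 0 => 1
  | e + 1 => FreeGroup.of (g e) * pw g e

/-- the positive word of a finite sequence of letters -/
def pwf {T : ℕ} (g : Fin T → Fin 2) : F2 := pw (fun e => if h : e < T then g ⟨e, h⟩ else 0) T

/-- the commutator of `t` with its conjugate by `h` -/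
def cc {G : Type} [Group G] (t h : G) : G := t * (h * t * h⁻¹) * t⁻¹ * (h * t * h⁻¹)⁻¹

/-- package CORE: commuting elements of a free group -/
def S_CORE : Prop := (∀ t h : F2, t ≠ 1 → Commute t (h * t * h⁻¹) → Commute t h) ∧
    ∀ u t v : F2, t ≠ 1 → Commute u t → Commute t v → Commute u v

open Classical in
/-- package NT: few positive words give a trivial commutator -/
def S_NT : Prop := ∀ (T : ℕ) (t : F2), t ≠ 1 →
    #{g : Fin T → Fin 2 | cc t (pwf g) = 1} ≤ 1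

/-- package COM: one word for a list of words -/
def S_COM : Prop := ∀ (ws : List F2) (ℓ : ℕ), ws ≠ [] → (∀ w ∈ ws, w ≠ 1) → 1 ≤ ℓ →
    (∀ w ∈ ws, w.norm ≤ ℓ) → ∃ u : F2, u ≠ 1 ∧ u.norm ≤ 100 * ws.length ^ 2 * ℓ ∧
      ∀ (H : Type) [Group H] (φ : F2 →* H), (∃ w ∈ ws, φ w = 1) → φ u = 1

/-- positive words of length `T` move points almost uniformly -/
def Mix {n : ℕ} (T : ℕ) (x : Pr n) : Prop := ∀ a b : Fin n,
    (#{g : Fin T → Fin 2 | ev x (pwf g) a = b} : ℝ) * n ≤ 2 * 2 ^ T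

/-- package MIX1: mixing on points for random pairs -/
def S_MIX1 : Prop := ∀ e : ℝ, 0 < e → ∀ᶠ n : ℕ in atTop,
    (Nat.card {x : Pr n // ¬ Mix (8 * ⌈4 * Real.log n⌉₊) x} : ℝ) ≤ e * (n.factorial : ℝ) ^ 2

open Classical in
/-- package STEP: the choice of one word which reduces the supports -/
def S_STEP : Prop := ∀ (n T : ℕ) (K s : ℝ) (X : Finset (Pr n)) (t : Pr n → Equiv.Perm (Fin n))
    (B : Finset (Fin T → Fin 2)), 0 < K → 0 ≤ s → 1 ≤ n → (∀ x ∈ X, Mix T x) →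
    (∀ x ∈ X, (#(t x).support : ℝ) ≤ s) → 2 * #B ≤ 2 ^ T → ∃ g ∉ B,
      (#{x ∈ X | 6 * K * s ^ 2 / n < (#(cc (t x) (ev x (pwf g))).support : ℝ)} :
        ℝ) ≤ 2 / K * #X

/-- `g` has a power `g ^ m`, `1 ≤ m ≤ n`, of support at most `d` -/
def PowSmall {n : ℕ} (d : ℝ) (g : Equiv.Perm (Fin n)) : Prop :=
  ∃ m, 1 ≤ m ∧ m ≤ n ∧ (#(g ^ m).support : ℝ) ≤ d

/-- package DEN: density of the permutations of given sign with a power of small support -/
def S_DEN : Prop := ∀ (n : ℕ) (ε : ℝ) (s : ℤˣ), 0 < ε → ε ≤ 1 / 2 → 8 ≤ ε * n →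
    ε / 8 * (n.factorial : ℝ) ≤
      Nat.card {g : Equiv.Perm (Fin n) // Equiv.Perm.sign g = s ∧ PowSmall (ε * n) g}

/-- package VAR2: correlation of a class function of `Sym(n)` with its translate -/
def S_VAR2 : Prop := ∀ (n : ℕ) (z : Alt n) (β : ℝ), 0 ≤ β →
    (∀ z' : Alt n, nfix (z' : Equiv.Perm (Fin n)) = nfix (z : Equiv.Perm (Fin n)) →
      ∀ (V : Type) [NormedAddCommGroup V] [InnerProductSpace ℂ V] [FiniteDimensional ℂ V]
        (ρ : Alt n →* (V ≃ₗᵢ[ℂ] V)), Irr ρ ⊤ → (∃ g v, ρ g v ≠ v) →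
        ‖chr ρ z'‖ ≤ β * Module.finrank ℂ V) →
    ∀ f : Equiv.Perm (Fin n) → ℝ, (∀ g h, f (g * h) = f (h * g)) →
      (∀ s : ℤˣ, ∑ g with Equiv.Perm.sign g = s, f g = 0) →
      ∑ g, f g * f (g * z) ≤ β * ∑ g, f g ^ 2

/-- package FFP: few fixed points for random pairs of `Sym(n)` -/
def S_FFP : Prop := ∀ e : ℝ, 0 < e → ∀ᶠ n : ℕ in atTop,
    (Nat.card {x : Pr n // ¬ FewFixK n ⌊(n : ℝ) ^ (1 / 8 : ℝ)⌋₊ ⌈(n : ℝ) ^ (1 / 2 : ℝ)⌉₊ x} : ℝ) ≤
      e * (n.factorial : ℝ) ^ 2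

/-- package SEC2: some `x₀ x₁ ^ (2 i)` has a power of small support -/
def S_SEC2 : Prop := ∀ e : ℝ, 0 < e → ∀ᶠ n : ℕ in atTop,
    (Nat.card {x : Pr n // ¬ ∃ i ≤ ⌊Real.log n⌋₊,
      PowSmall (n / Real.sqrt (Real.log n)) (x 0 * x 1 ^ (2 * i))} : ℝ) ≤
      e * (n.factorial : ℝ) ^ 2

/-- package FIN: the assembly -/
def S_AL : Prop := ∃ w : ℕ → F2,
    (∀ᶠ n : ℕ in atTop, w n ≠ 1 ∧ ((w n).norm : ℝ) ≤ (n : ℝ) ^ 3 * Real.log n ^ 6) ∧
    ∀ e : ℝ, 0 < e → ∀ᶠ n : ℕ in atTop,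
      (Nat.card {x : Pr n // ev x (w n) ≠ 1} : ℝ) ≤ e * (n.factorial : ℝ) ^ 2

end

end AL516
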